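import Pool.Agent.H.MP_d7d3dc_an.helper67.Huber

/-!
MP_d7d3dc_an, subspaces of `L_1` (helper67): the extremal orthonormal basis.
-/

set_option autoImplicit false

namespace D7L

open MeasureTheory Finset
open scoped RealInnerProductSpace BigOperators

/-- `ℝ^m` with the Euclidean norm. -/
abbrev EE (m : ℕ) : Type := EuclideanSpace ℝ (Fin m)

/-- an isotropic random vector on the sphere of radius `√m`. -/
structure Iso {Ω : Type} [MeasurableSpace Ω] (ν : Measure Ω) (m : ℕ) (f : Ω → EE m) : Prop where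
  meas : Measurable f
  sq : ∀ ω, ‖f ω‖ ^ 2 = m
  iso : ∀ x : EE m, ∫ ω, ⟪x, f ω⟫ ^ 2 ∂ν = ‖x‖ ^ 2

section core
variable {Ω : Type} [MeasurableSpace Ω] {ν : Measure Ω} {m : ℕ} {f : Ω → EE m}

lemma Iso.norm_eq (h : Iso ν m f) (ω : Ω) : ‖f ω‖ = √m := by
  rw [← h.sq ω, Real.sqrt_sq (norm_nonneg _)]

lemma Iso.abs_inner_le (h : Iso ν m f) (x : EE m) (ω : Ω) : |⟪x, f ω⟫| ≤ √m * ‖x‖ := by
  have := abs_real_inner_le_norm x (f ω)
  rw [h.norm_eq] at this
  linarith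

lemma Iso.meas_inner (h : Iso ν m f) (x : EE m) : Measurable fun ω => ⟪x, f ω⟫ :=
  (continuous_const.inner continuous_id).measurable.comp h.meas

/-- measurable functions bounded by a constant are integrable. -/
lemma integrable_bdd [IsFiniteMeasure ν] {g : Ω → ℝ} (hg : Measurable g) {C : ℝ}
    (hC : ∀ ω, |g ω| ≤ C) : Integrable g ν :=
  Integrable.of_bound hg.aestronglyMeasurable C (Filter.Eventually.of_forall hC)

/-- the set of orthonormal systems of length `m`. -/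
def ON (m : ℕ) : Set (Fin m → EE m) := {O | ∀ i j, ⟪O i, O j⟫ = if i = j then (1:ℝ) else 0}

lemma ON_norm {O : Fin m → EE m} (hO : O ∈ ON m) (i : Fin m) : ‖O i‖ = 1 := by
  have h := hO i i
  rw [if_pos rfl, real_inner_self_eq_norm_sq] at h
  nlinarith [norm_nonneg (O i)]

lemma ON_compact (m : ℕ) : IsCompact (ON m) := by
  refine Metric.isCompact_of_isClosed_isBounded ?_ ?_
  · have : ON m = ⋂ i, ⋂ j, {O : Fin m → EE m | ⟪O i, O j⟫ = if i = j then (1:ℝ) else 0} := by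
      ext O; simp [ON]
    rw [this]
    refine isClosed_iInter fun i => isClosed_iInter fun j => isClosed_eq ?_ continuous_const
    exact (continuous_apply i).inner (continuous_apply j)
  · refine (Metric.isBounded_closedBall (x := (0 : Fin m → EE m)) (r := 1)).subset ?_
    intro O hO
    rw [mem_closedBall_zero_iff, pi_norm_le_iff_of_nonneg zero_le_one]
    intro i
    rw [ON_norm hO]

lemma ON_nonempty (m : ℕ) : (ON m).Nonempty := by
  refine ⟨fun i => EuclideanSpace.basisFun (Fin m) ℝ i, fun i j => ?_⟩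
  exact orthonormal_iff_ite.1 (EuclideanSpace.basisFun (Fin m) ℝ).orthonormal i j

/-- the orthonormal basis of an element of `ON m`. -/
noncomputable def ONb {O : Fin m → EE m} (hO : O ∈ ON m) : OrthonormalBasis (Fin m) ℝ (EE m) :=
  OrthonormalBasis.mk (orthonormal_iff_ite.2 hO) (by
    rw [(orthonormal_iff_ite.2 hO).linearIndependent.span_eq_top_of_card_eq_finrank' (by simp)])

lemma ONb_apply {O : Fin m → EE m} (hO : O ∈ ON m) (i : Fin m) : ONb hO i = O i := by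
  simp [ONb]

lemma ON_parseval {O : Fin m → EE m} (hO : O ∈ ON m) (x y : EE m) :
    ∑ i, ⟪O i, x⟫ * ⟪O i, y⟫ = ⟪x, y⟫ := by
  have := (ONb hO).sum_inner_mul_inner x y
  rw [← this]
  refine Finset.sum_congr rfl fun i _ => ?_
  rw [ONb_apply, real_inner_comm x]

/-- the functional. -/
noncomputable def FF (ν : Measure Ω) (f : Ω → EE m) (O : Fin m → EE m) : ℝ :=
  ∫ ω, ∑ i, Ps ⟪O i, f ω⟫ ∂ν

lemma FF_exists_max [IsProbabilityMeasure ν] (h : Iso ν m f) :
    ∃ O ∈ ON m, ∀ O' ∈ ON m, FF ν f O' ≤ FF ν f O := by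
  have hc : ContinuousOn (FF ν f) (ON m) := by
    refine continuousOn_of_dominated (bound := fun _ => ∑ _i : Fin m, 7/2 * √m) ?_ ?_
      (integrable_const _) ?_
    · intro O _
      refine Measurable.aestronglyMeasurable ?_
      exact Finset.measurable_sum _ fun i _ => Ps_continuous.measurable.comp (h.meas_inner _)
    · intro O hO
      refine Filter.Eventually.of_forall fun ω => ?_
      rw [Real.norm_eq_abs]
      refine (Finset.abs_sum_le_sum_abs _ _).trans (Finset.sum_le_sum fun i _ => ?_)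
      refine (abs_Ps_le _).trans ?_
      have := h.abs_inner_le (O i) ω
      rw [ON_norm hO, mul_one] at this
      linarith
    · refine Filter.Eventually.of_forall fun ω => Continuous.continuousOn ?_
      refine continuous_finsetSum _ fun i _ => Ps_continuous.comp ?_
      exact (continuous_apply i).inner continuous_const
  obtain ⟨O, hO, hmax⟩ := (ON_compact m).exists_isMaxOn (ON_nonempty m) hc
  exact ⟨O, hO, fun O' hO' => hmax hO'⟩

/-- the quadratic form `M`. -/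
noncomputable def MM (ν : Measure Ω) (f : Ω → EE m) (O : Fin m → EE m) (U : EE m) : ℝ :=
  ∫ ω, ∑ i, ps ⟪O i, f ω⟫ * (⟪O i, U⟫ * ⟪U, f ω⟫) ∂ν

lemma int_term [IsProbabilityMeasure ν] (h : Iso ν m f) (O : Fin m → EE m) (U W : EE m) :
    Integrable (fun ω => ∑ i, ps ⟪O i, f ω⟫ * (⟪O i, U⟫ * ⟪W, f ω⟫)) ν := by
  refine integrable_finsetSum _ fun i _ => ?_
  refine integrable_bdd (C := 7/2 * (|⟪O i, U⟫| * (√m * ‖W‖))) ?_ fun ω => ?_
  · exact (ps_continuous.measurable.comp (h.meas_inner _)).mul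
      ((h.meas_inner _).const_mul _)
  · rw [abs_mul, abs_mul]
    have h1 := abs_ps_le ⟪O i, f ω⟫
    have h2 := h.abs_inner_le W ω
    gcongr

private lemma int_comb {A B X Y Z : Ω → ℝ} (hA : Integrable A ν) (hB : Integrable B ν)
    (hX : Integrable X ν) (hY : Integrable Y ν) (hZ : Integrable Z ν) (a b : ℝ)
    (h : ∀ ω, a * A ω + b * B ω ≤ X ω + Y ω - 2 * Z ω) :
    a * (∫ ω, A ω ∂ν) + b * (∫ ω, B ω ∂ν) ≤ (∫ ω, X ω ∂ν) + (∫ ω, Y ω ∂ν) - 2 * ∫ ω, Z ω ∂ν := by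
  have h1 : ∫ ω, (a * A ω + b * B ω) ∂ν = a * (∫ ω, A ω ∂ν) + b * (∫ ω, B ω ∂ν) := by
    rw [integral_add (hA.const_mul a) (hB.const_mul b), integral_const_mul, integral_const_mul]
  have h2 : ∫ ω, (X ω + Y ω - 2 * Z ω) ∂ν =
      (∫ ω, X ω ∂ν) + (∫ ω, Y ω ∂ν) - 2 * ∫ ω, Z ω ∂ν := by
    have h3 : ∫ ω, (X ω + Y ω - 2 * Z ω) ∂ν = ∫ ω, (X ω + Y ω) ∂ν - ∫ ω, 2 * Z ω ∂ν :=
      integral_sub (hX.add hY) (hZ.const_mul 2)
    rw [h3, integral_add hX hY, integral_const_mul]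
  rw [← h1, ← h2]
  exact integral_mono ((hA.const_mul a).add (hB.const_mul b)) ((hX.add hY).sub (hZ.const_mul 2)) h

private lemma pt_aux (a c t p q : ℝ) (h1 : |(c - 1) * p + t * q| ≤ 1/2)
    (h2 : |(c - 1) * p + (-t) * q| ≤ 1/2) :
    2 * (c - 1) * (ps a * p) + t ^ 2 * (if |a| ≤ 3 then q ^ 2 else 0) ≤
      Ps (a + ((c - 1) * p + t * q)) + Ps (a + ((c - 1) * p + (-t) * q)) - 2 * Ps a := by
  refine le_trans ?_ (Ps_second a _ _ h1 h2)
  split_ifs
  · have e : ps a * ((c - 1) * p + t * q + ((c - 1) * p + (-t) * q)) +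
        (((c - 1) * p + t * q) ^ 2 + ((c - 1) * p + (-t) * q) ^ 2) / 2 =
        (2 * (c - 1) * (ps a * p) + t ^ 2 * q ^ 2) + ((c - 1) * p) ^ 2 := by ring
    rw [e]
    exact le_add_of_nonneg_right (sq_nonneg _)
  · apply le_of_eq; ring

/-- the second order condition at the extremal basis. -/
lemma second_order [IsProbabilityMeasure ν] (hm : 1 ≤ m) (h : Iso ν m f) {O : Fin m → EE m}
    (hO : O ∈ ON m) (hmax : ∀ O' ∈ ON m, FF ν f O' ≤ FF ν f O) {U V : EE m}
    (hU : ⟪U, U⟫ = (1:ℝ)) (hV : ⟪V, V⟫ = (1:ℝ)) (hUV : ⟪U, V⟫ = (0:ℝ)) :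
    (2 - 1 / (64 * (m:ℝ))) * ∫ ω, ∑ i, (if |⟪O i, f ω⟫| ≤ 3 then
      (⟪O i, U⟫ * ⟪V, f ω⟫ - ⟪O i, V⟫ * ⟪U, f ω⟫) ^ 2 else 0) ∂ν ≤
    2 * (MM ν f O U + MM ν f O V) := by
  have hmR : (1:ℝ) ≤ m := by exact_mod_cast hm
  have hs1 : 1 ≤ √(m:ℝ) := by rw [Real.one_le_sqrt]; exact hmR
  have hsq : √(m:ℝ) ^ 2 = m := Real.sq_sqrt (by positivity)
  obtain ⟨t, ht⟩ : ∃ t, t = 1 / (8 * √(m:ℝ)) := ⟨_, rfl⟩
  have ht0 : 0 < t := by rw [ht]; positivity
  have ht1 : t * √(m:ℝ) = 1 / 8 := by rw [ht]; field_simp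
  have ht2 : t ^ 2 = 1 / (64 * (m:ℝ)) := by
    rw [ht, div_pow, mul_pow, hsq]; norm_num
  have ht3 : t ^ 2 ≤ 1 / 64 := by
    rw [ht2]
    exact one_div_le_one_div_of_le (by norm_num) (by linarith)
  obtain ⟨c, hc⟩ : ∃ c, c = √(1 - t ^ 2) := ⟨_, rfl⟩
  have hc2 : c ^ 2 = 1 - t ^ 2 := by rw [hc]; exact Real.sq_sqrt (by linarith)
  have hc0 : 0 ≤ c := by rw [hc]; exact Real.sqrt_nonneg _
  have hc1 : c < 1 := by nlinarith
  have hc3 : 1 - t ^ 2 ≤ c := by nlinarith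
  have hct : c ^ 2 + t ^ 2 = 1 := by rw [hc2]; ring
  have hct' : c ^ 2 + (-t) ^ 2 = 1 := by rw [neg_sq]; exact hct
  -- the rotated systems
  have hrot : ∀ t' : ℝ, c ^ 2 + t' ^ 2 = 1 → (fun i => rot c t' U V (O i)) ∈ ON m := by
    intro t' ht' i j
    rw [inner_rot ht' hU hV hUV]
    exact hO i j
  have hUn : ‖U‖ = 1 := by
    rw [real_inner_self_eq_norm_sq] at hU; nlinarith [norm_nonneg U]
  have hVn : ‖V‖ = 1 := by
    rw [real_inner_self_eq_norm_sq] at hV; nlinarith [norm_nonneg V]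
  have hOU : ∀ i, |⟪O i, U⟫| ≤ 1 := fun i => by
    have := abs_real_inner_le_norm (O i) U
    rwa [ON_norm hO, hUn, one_mul] at this
  have hOV : ∀ i, |⟪O i, V⟫| ≤ 1 := fun i => by
    have := abs_real_inner_le_norm (O i) V
    rwa [ON_norm hO, hVn, one_mul] at this
  have hUf : ∀ ω, |⟪U, f ω⟫| ≤ √m := fun ω => by
    have := h.abs_inner_le U ω
    rwa [hUn, mul_one] at this
  have hVf : ∀ ω, |⟪V, f ω⟫| ≤ √m := fun ω => by
    have := h.abs_inner_le V ω
    rwa [hVn, mul_one] at this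
  -- abbreviations
  let x : Fin m → Ω → ℝ := fun i ω => ⟪O i, f ω⟫
  let p : Fin m → Ω → ℝ := fun i ω => ⟪O i, U⟫ * ⟪U, f ω⟫ + ⟪O i, V⟫ * ⟪V, f ω⟫
  let q : Fin m → Ω → ℝ := fun i ω => ⟪O i, U⟫ * ⟪V, f ω⟫ - ⟪O i, V⟫ * ⟪U, f ω⟫
  have hp : ∀ i ω, |p i ω| ≤ 2 * √m := fun i ω => by
    refine (abs_add_le _ _).trans ?_
    rw [abs_mul, abs_mul]
    have h1 := mul_le_mul (hOU i) (hUf ω) (abs_nonneg _) zero_le_one
    have h2 := mul_le_mul (hOV i) (hVf ω) (abs_nonneg _) zero_le_one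
    linarith
  have hq : ∀ i ω, |q i ω| ≤ 2 * √m := fun i ω => by
    refine (abs_sub _ _).trans ?_
    rw [abs_mul, abs_mul]
    have h1 := mul_le_mul (hOU i) (hVf ω) (abs_nonneg _) zero_le_one
    have h2 := mul_le_mul (hOV i) (hUf ω) (abs_nonneg _) zero_le_one
    linarith
  have hd : ∀ (t' : ℝ), |t'| = t → ∀ i ω, |(c - 1) * p i ω + t' * q i ω| ≤ 1/2 := by
    intro t' ht' i ω
    refine (abs_add_le _ _).trans ?_
    rw [abs_mul, abs_mul, ht', abs_of_nonpos (by linarith : c - 1 ≤ 0)]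
    have h1 : -(c - 1) * |p i ω| ≤ t ^ 2 * (2 * √m) :=
      mul_le_mul (by linarith) (hp i ω) (abs_nonneg _) (sq_nonneg _)
    have h2 : t * |q i ω| ≤ t * (2 * √m) := mul_le_mul_of_nonneg_left (hq i ω) ht0.le
    have h3 : t ^ 2 * (2 * √m) = 2 * t * (t * √m) := by ring
    have h4 : t * (2 * √m) = 2 * (t * √m) := by ring
    rw [h3, ht1] at h1
    rw [h4, ht1] at h2
    have h5 : t ≤ 1 := by nlinarith
    linarith
  have hmx : ∀ i, Measurable (x i) := fun i => h.meas_inner _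
  have hmp : ∀ i, Measurable (p i) := fun i =>
    ((h.meas_inner _).const_mul _).add ((h.meas_inner _).const_mul _)
  have hmq : ∀ i, Measurable (q i) := fun i =>
    ((h.meas_inner _).const_mul _).sub ((h.meas_inner _).const_mul _)
  have hxb : ∀ i ω, |x i ω| ≤ √m := fun i ω => by
    have := h.abs_inner_le (O i) ω
    rwa [ON_norm hO, mul_one] at this
  -- integrability of the three functions
  have hI0 : Integrable (fun ω => ∑ i, Ps (x i ω)) ν := by
    refine integrable_finsetSum _ fun i _ => ?_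
    refine integrable_bdd (C := 7/2 * √m) (Ps_continuous.measurable.comp (hmx i)) fun ω => ?_
    exact (abs_Ps_le _).trans (by linarith [hxb i ω])
  have hIr : ∀ t' : ℝ, |t'| = t →
      Integrable (fun ω => ∑ i, Ps (x i ω + ((c - 1) * p i ω + t' * q i ω))) ν := by
    intro t' ht'
    refine integrable_finsetSum _ fun i _ => ?_
    refine integrable_bdd (C := 7/2 * (√m + 1/2)) ?_ fun ω => ?_
    · exact Ps_continuous.measurable.comp
        ((hmx i).add (((hmp i).const_mul _).add ((hmq i).const_mul _)))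
    · refine (abs_Ps_le _).trans ?_
      have h1 := abs_add_le (x i ω) ((c - 1) * p i ω + t' * q i ω)
      have h2 := hd t' ht' i ω
      have h3 := hxb i ω
      linarith
  have htt : |t| = t := abs_of_pos ht0
  have htt' : |(-t)| = t := by rw [abs_neg, htt]
  have hFr : ∀ t' : ℝ, FF ν f (fun i => rot c t' U V (O i)) =
      ∫ ω, ∑ i, Ps (x i ω + ((c - 1) * p i ω + t' * q i ω)) ∂ν := by
    intro t'
    unfold FF
    refine integral_congr_ae (Filter.Eventually.of_forall fun ω => ?_)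
    refine Finset.sum_congr rfl fun i _ => ?_
    simp only [inner_rot_right]
    rfl
  have hm1 := hmax _ (hrot t hct)
  have hm2 := hmax _ (hrot (-t) hct')
  rw [hFr] at hm1 hm2
  have hF0 : FF ν f O = ∫ ω, ∑ i, Ps (x i ω) ∂ν := rfl
  rw [hF0] at hm1 hm2
  -- the pointwise inequality
  have hIg : Integrable (fun ω => ∑ i, (if |x i ω| ≤ 3 then q i ω ^ 2 else 0)) ν := by
    refine integrable_finsetSum _ fun i _ => ?_
    refine integrable_bdd (C := (2 * √m) ^ 2) ?_ fun ω => ?_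
    · exact Measurable.ite (measurableSet_le (hmx i).abs measurable_const) ((hmq i).pow_const 2)
        measurable_const
    · split_ifs
      · rw [abs_pow]
        exact pow_le_pow_left₀ (abs_nonneg _) (hq i ω) 2
      · rw [abs_zero]; positivity
  have hIp : Integrable (fun ω => ∑ i, ps (x i ω) * p i ω) ν := by
    have := (int_term h O U U).add (int_term h O V V)
    refine this.congr (Filter.Eventually.of_forall fun ω => ?_)
    simp only [Pi.add_apply]
    rw [← Finset.sum_add_distrib]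
    refine Finset.sum_congr rfl fun i _ => ?_
    simp only [x, p]
    ring
  have hpt : ∀ ω, 2 * (c - 1) * (∑ i, ps (x i ω) * p i ω) +
      t ^ 2 * (∑ i, (if |x i ω| ≤ 3 then q i ω ^ 2 else 0)) ≤
      (∑ i, Ps (x i ω + ((c - 1) * p i ω + t * q i ω))) +
      (∑ i, Ps (x i ω + ((c - 1) * p i ω + (-t) * q i ω))) - 2 * ∑ i, Ps (x i ω) := by
    intro ω
    rw [Finset.mul_sum, Finset.mul_sum, Finset.mul_sum, ← Finset.sum_add_distrib,
      ← Finset.sum_add_distrib, ← Finset.sum_sub_distrib]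
    exact Finset.sum_le_sum fun i _ => pt_aux _ _ _ _ _ (hd t htt i ω) (hd (-t) htt' i ω)
  have hint : 2 * (c - 1) * (∫ ω, ∑ i, ps (x i ω) * p i ω ∂ν) +
      t ^ 2 * (∫ ω, ∑ i, (if |x i ω| ≤ 3 then q i ω ^ 2 else 0) ∂ν) ≤
      (∫ ω, ∑ i, Ps (x i ω + ((c - 1) * p i ω + t * q i ω)) ∂ν) +
      (∫ ω, ∑ i, Ps (x i ω + ((c - 1) * p i ω + (-t) * q i ω)) ∂ν) -
      2 * ∫ ω, ∑ i, Ps (x i ω) ∂ν := by
    exact int_comb hIp hIg (hIr t htt) (hIr _ htt') hI0 _ _ hpt
  have hMM : MM ν f O U + MM ν f O V = ∫ ω, ∑ i, ps (x i ω) * p i ω ∂ν := by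
    unfold MM
    rw [← integral_add (int_term h O U U) (int_term h O V V)]
    refine integral_congr_ae (Filter.Eventually.of_forall fun ω => ?_)
    simp only
    rw [← Finset.sum_add_distrib]
    refine Finset.sum_congr rfl fun i _ => ?_
    simp only [x, p]
    ring
  rw [hMM]
  have hG0 : 0 ≤ ∫ ω, ∑ i, (if |x i ω| ≤ 3 then q i ω ^ 2 else 0) ∂ν := by
    refine integral_nonneg fun ω => Finset.sum_nonneg fun i _ => ?_
    split_ifs <;> positivity
  obtain ⟨G, hG⟩ : ∃ G, G = ∫ ω, ∑ i, (if |x i ω| ≤ 3 then q i ω ^ 2 else 0) ∂ν := ⟨_, rfl⟩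
  obtain ⟨S, hS⟩ : ∃ S, S = ∫ ω, ∑ i, ps (x i ω) * p i ω ∂ν := ⟨_, rfl⟩
  show (2 - 1 / (64 * (m:ℝ))) * (∫ ω, ∑ i, (if |x i ω| ≤ 3 then q i ω ^ 2 else 0) ∂ν) ≤
    2 * ∫ ω, ∑ i, ps (x i ω) * p i ω ∂ν
  rw [← hG, ← hS] at hint
  rw [← hG] at hG0
  rw [← hG, ← hS, ← ht2]
  have h1 : t ^ 2 * G ≤ 2 * (1 - c) * S := by linarith
  have h2 : t ^ 2 = (1 - c) * (1 + c) := by linear_combination hct
  have h3 : (1 - c) * ((1 + c) * G) ≤ (1 - c) * (2 * S) := by
    rw [h2] at h1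
    nlinarith
  have h4 : (1 + c) * G ≤ 2 * S := le_of_mul_le_mul_left h3 (by linarith)
  nlinarith

end core

end D7L
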