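import Pool.Agent.H.MP_d7d3dc_an.helper67.Emb
import Pool.Agent.H.MP_d7d3dc_an.h17.Sys
import Pool.Agent.H.MP_d7d3dc_an.h98.Main

/-!
MP_d7d3dc_an, subspaces of `L_1` (helper67): the distance to the spaces of numerical index one.
-/

set_option autoImplicit false

namespace D7L

open MeasureTheory Finset Pool.Agent.H.MP_d7d3dc_an D7u
open scoped RealInnerProductSpace ENNReal BigOperators

/-- the dual system. -/
lemma exists_dual {m : ℕ} {c : ℝ} (hc : 0 < c) (e : Fin m → EE m)
    (h : ∀ a : Fin m → ℝ, c * √(∑ i, a i ^ 2) ≤ ‖∑ i, a i • e i‖) :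
    ∃ y : Fin m → EE m, ∀ i j, ⟪e i, y j⟫ = if i = j then (1:ℝ) else 0 := by
  have hli : LinearIndependent ℝ e := by
    rw [Fintype.linearIndependent_iff]
    intro g hg i
    have h1 := h g
    rw [hg, norm_zero] at h1
    have h2 : √(∑ i, g i ^ 2) = 0 := by
      refine le_antisymm ?_ (Real.sqrt_nonneg _)
      by_contra hlt
      rw [not_le] at hlt
      linarith [mul_pos hc hlt]
    rw [Real.sqrt_eq_zero (by positivity)] at h2
    have h3 := (Finset.sum_eq_zero_iff_of_nonneg fun i _ => sq_nonneg (g i)).1 h2 i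
      (Finset.mem_univ i)
    exact pow_eq_zero_iff two_ne_zero |>.1 h3
  have hsp : Submodule.span ℝ (Set.range e) = ⊤ := hli.span_eq_top_of_card_eq_finrank' (by simp)
  let B := Module.Basis.mk hli (by rw [hsp])
  have hB : ∀ i, B i = e i := fun i => by simp [B]
  refine ⟨fun j => (InnerProductSpace.toDual ℝ (EE m)).symm
    (LinearMap.toContinuousLinearMap (B.coord j)), fun i j => ?_⟩
  rw [real_inner_comm, InnerProductSpace.toDual_symm_apply, ← hB]
  simp [Finsupp.single_apply]

section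
variable {Ω : Type} [MeasurableSpace Ω] {ν : Measure Ω} {m : ℕ} {f : Ω → EE m}

private lemma nrm {X : Type} [NormedAddCommGroup X] [NormedSpace ℝ X]
    [IsProbabilityMeasure ν] (h : Iso ν m f) (S : EE m ≃ₗ[ℝ] X)
    (hS : ∀ x, √m * ‖S x‖ = N1 ν f x) (x : EE m) : √m * ‖S x‖ ≤ ‖x‖ := by
  rw [hS]; exact h.N1_le x

/-- distance to the cube. -/
theorem dist_cube {X : Type} [NormedAddCommGroup X] [NormedSpace ℝ X] (hm : 1 ≤ m)
    [IsProbabilityMeasure ν] (h : Iso ν m f) (S : EE m ≃ₗ[ℝ] X)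
    (hS : ∀ x, √m * ‖S x‖ = N1 ν f x) :
    ∃ β : Fin m → Fin m, bmDist X (CL β) ≤ ENNReal.ofReal (6 * √m) := by
  have hmR : (1:ℝ) ≤ m := by exact_mod_cast hm
  have hs : 0 < √(m:ℝ) := by positivity
  obtain ⟨K, c, e, hg⟩ := exists_good h
  obtain ⟨y, hy⟩ := exists_dual hg.cpos e hg.low'
  let i0 : Fin m := ⟨0, by omega⟩
  have hc := hg.cpos
  refine ⟨fun _ => i0, ?_⟩
  refine (bmDist_le_of_system X S.toContinuousLinearEquiv y e (fun i j => ?_) (fun _ => i0)
    (fun _ => 1 / c) (fun _ => by positivity) ?_ (K / c * √m) ?_).trans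
    (ENNReal.ofReal_le_ofReal ?_)
  · rw [real_inner_comm, hy]
    simp only [eq_comm]
  · intro b ε hε
    show ‖S (∑ i ∈ Finset.univ.filter (fun _ => i0 = b), ε i • y i)‖ ≤ 1 / c
    by_cases hb : i0 = b
    · have h1 : (Finset.univ.filter (fun _ : Fin m => i0 = b)) = Finset.univ := by
        simp [hb]
      rw [h1]
      obtain ⟨z, hz⟩ : ∃ z, z = ∑ i, ε i • y i := ⟨_, rfl⟩
      rw [← hz]
      have h2 : ∀ j, ⟪e j, z⟫ = ε j := by
        intro j
        rw [hz, inner_sum]
        simp [real_inner_smul_right, hy]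
      have h3 : ∑ i, ⟪e i, z⟫ ^ 2 = m := by
        have : ∀ i ∈ Finset.univ, ⟪e i, z⟫ ^ 2 = 1 := by
          intro i _
          rw [h2]
          rcases hε i with h4 | h4 <;> rw [h4] <;> norm_num
        rw [Finset.sum_congr rfl this]
        simp
      have h4 := hg.low z
      rw [h3] at h4
      have h5 := nrm h S hS z
      rw [le_div_iff₀ hc]
      have h6 : √m * (‖S z‖ * c) ≤ √m * 1 := by
        calc √m * (‖S z‖ * c) = c * (√m * ‖S z‖) := by ring
          _ ≤ c * ‖z‖ := mul_le_mul_of_nonneg_left h5 hc.le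
          _ ≤ √m * 1 := by rw [mul_one]; exact h4
      exact le_of_mul_le_mul_left h6 hs
    · have h1 : (Finset.univ.filter (fun _ : Fin m => i0 = b)) = ∅ := by
        simp [hb]
      rw [h1]
      simp only [Finset.sum_empty, map_zero, norm_zero]
      positivity
  · intro z
    show ∑ b, 1 / c * ‖(fun i => ⟪z, e i⟫ : {i : Fin m // i0 = b} → ℝ)‖ ≤ K / c * √m * ‖S z‖
    rw [Finset.sum_eq_single i0]
    · have h1 : ‖(fun i => ⟪z, e i⟫ : {i : Fin m // i0 = i0} → ℝ)‖ ≤ K * (√m * ‖S z‖) := by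
        rw [pi_norm_le_iff_of_nonneg (mul_nonneg hg.Kpos.le (by positivity))]
        intro i
        rw [hS, Real.norm_eq_abs, real_inner_comm]
        exact hg.up i z
      calc 1 / c * ‖(fun i => ⟪z, e i⟫ : {i : Fin m // i0 = i0} → ℝ)‖
          ≤ 1 / c * (K * (√m * ‖S z‖)) := mul_le_mul_of_nonneg_left h1 (by positivity)
        _ = K / c * √m * ‖S z‖ := by ring
    · intro b _ hb
      have h1 : IsEmpty {i : Fin m // i0 = b} := ⟨fun i => hb i.2.symm⟩
      have h2 : ‖(fun i => ⟪z, e i⟫ : {i : Fin m // i0 = b} → ℝ)‖ = 0 := by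
        rw [norm_eq_zero]
        exact Subsingleton.elim _ _
      rw [h2, mul_zero]
    · intro h1
      exact absurd (Finset.mem_univ _) h1
  · have h1 : K / c ≤ 6 := by rw [div_le_iff₀ hc]; exact hg.le
    exact mul_le_mul_of_nonneg_right h1 hs.le

/-- distance to the cross-polytope. -/
theorem dist_cross {X : Type} [NormedAddCommGroup X] [NormedSpace ℝ X] [FiniteDimensional ℝ X]
    (hX : Module.finrank ℝ X = m) (hm : 1 ≤ m)
    [IsProbabilityMeasure ν] (h : Iso ν m f) (S : EE m ≃ₗ[ℝ] StrongDual ℝ X)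
    (hS : ∀ x, √m * ‖S x‖ = N1 ν f x) :
    ∃ β : Fin m → Fin m, bmDist X (CL β) ≤ ENNReal.ofReal (6 * √m) := by
  have hmR : (1:ℝ) ≤ m := by exact_mod_cast hm
  have hs : 0 < √(m:ℝ) := by positivity
  obtain ⟨K, c, e, hg⟩ := exists_good h
  obtain ⟨y, hy⟩ := exists_dual hg.cpos e hg.low'
  have hc := hg.cpos
  -- the transposed map
  let V : X →ₗ[ℝ] EE m :=
    { toFun := fun x => (InnerProductSpace.toDual ℝ (EE m)).symm
        (LinearMap.toContinuousLinearMap
          { toFun := fun w => S w x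
            map_add' := fun w w' => by simp
            map_smul' := fun t w => by simp })
      map_add' := by
        intro x x'
        rw [← map_add]
        congr 1
        ext w
        simp
      map_smul' := by
        intro t x
        apply ext_inner_right ℝ
        intro w
        rw [InnerProductSpace.toDual_symm_apply, RingHom.id_apply, real_inner_smul_left,
          InnerProductSpace.toDual_symm_apply]
        simp }
  have hV : ∀ x w, ⟪w, V x⟫ = S w x := by
    intro x w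
    rw [real_inner_comm]
    exact InnerProductSpace.toDual_symm_apply
  have hVinj : Function.Injective V := by
    rw [injective_iff_map_eq_zero]
    intro x hx
    have h1 : ∀ g : StrongDual ℝ X, g x = 0 := by
      intro g
      have h2 := hV x (S.symm g)
      rwa [hx, inner_zero_right, S.apply_symm_apply, eq_comm] at h2
    by_contra hne
    obtain ⟨g, hg1, hg2⟩ := exists_dual_vector ℝ x (norm_ne_zero_iff.2 hne)
    rw [h1 g] at hg2
    exact hne (norm_eq_zero.1 (by simpa using hg2.symm))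
  let V' : X ≃ₗ[ℝ] EE m := LinearEquiv.ofInjectiveOfFinrankEq V hVinj (by rw [hX]; simp)
  have hV' : ∀ x, V' x = V x := fun x => rfl
  have hu : ∀ z w, S w (V'.symm z) = ⟪w, z⟫ := by
    intro z w
    rw [← hV, ← hV', V'.apply_symm_apply]
  refine ⟨id, ?_⟩
  refine (bmDist_le_of_system X V'.symm.toContinuousLinearEquiv e y hy id
    (fun _ => K * √m) (fun _ => mul_pos hg.Kpos hs) ?_ (K / c * √m) ?_).trans
    (ENNReal.ofReal_le_ofReal ?_)
  · intro b ε hε
    show ‖V'.symm (∑ i ∈ Finset.univ.filter (fun i => i = b), ε i • e i)‖ ≤ K * √m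
    have h1 : (Finset.univ.filter (fun i : Fin m => i = b)) = {b} := by
      ext i; simp
    rw [h1, Finset.sum_singleton, map_smul, norm_smul]
    have h2 : ‖ε b‖ = 1 := by
      rcases hε b with h3 | h3 <;> rw [h3] <;> simp
    rw [h2, one_mul]
    refine NormedSpace.norm_le_dual_bound ℝ _ (mul_nonneg hg.Kpos.le hs.le) fun g => ?_
    obtain ⟨w, rfl⟩ := S.surjective g
    rw [hu, Real.norm_eq_abs, real_inner_comm, mul_assoc, hS]
    exact hg.up b w
  · intro z
    show ∑ b, K * √m * ‖(fun i => ⟪z, y i⟫ : {i : Fin m // id i = b} → ℝ)‖ ≤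
      K / c * √m * ‖V'.symm z‖
    have h1 : ∀ b : Fin m, ‖(fun i => ⟪z, y i⟫ : {i : Fin m // id i = b} → ℝ)‖ ≤ |⟪z, y b⟫| := by
      intro b
      rw [pi_norm_le_iff_of_nonneg (abs_nonneg _)]
      rintro ⟨i, rfl⟩
      exact le_rfl
    have h2 : ∑ b, ⟪z, y b⟫ • e b = z := by
      have hsp : ∀ w : EE m, (∀ j, ⟪w, y j⟫ = 0) → w = 0 := by
        intro w hw
        have hli : LinearIndependent ℝ y := by
          rw [Fintype.linearIndependent_iff]
          intro g hg' i
          have h3 : ⟪e i, ∑ j, g j • y j⟫ = 0 := by rw [hg', inner_zero_right]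
          rw [inner_sum] at h3
          simpa [real_inner_smul_right, hy] using h3
        have hspan : Submodule.span ℝ (Set.range y) = ⊤ :=
          hli.span_eq_top_of_card_eq_finrank' (by simp)
        have hz : w ∈ Submodule.span ℝ (Set.range y) := by rw [hspan]; trivial
        obtain ⟨g, hg'⟩ := (Submodule.mem_span_range_iff_exists_fun ℝ).1 hz
        have h4 : ⟪w, w⟫ = (0:ℝ) := by
          conv_lhs => rw [← hg']
          rw [hg', ← hg', inner_sum]
          refine Finset.sum_eq_zero fun j _ => ?_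
          rw [real_inner_smul_right, hg', hw, mul_zero]
        exact inner_self_eq_zero.1 h4
      rw [← sub_eq_zero]
      apply hsp
      intro j
      rw [inner_sub_left, sum_inner]
      simp [real_inner_smul_left, hy]
    have h3 : c * √(∑ b, ⟪z, y b⟫ ^ 2) ≤ ‖z‖ := by
      have := hg.low' fun b => ⟪z, y b⟫
      rwa [h2] at this
    have h4 : ∑ b, |⟪z, y b⟫| ≤ √m * √(∑ b, ⟪z, y b⟫ ^ 2) := by
      rw [← Real.sqrt_mul (by positivity)]
      apply Real.le_sqrt_of_sq_le
      have := sq_sum_le_card_mul_sum_sq (s := (Finset.univ : Finset (Fin m)))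
        (f := fun b => |⟪z, y b⟫|)
      simpa [sq_abs] using this
    have h5 : √m * ‖z‖ ≤ ‖V'.symm z‖ := by
      rcases (norm_nonneg z).eq_or_lt with h0 | h0
      · rw [← h0, mul_zero]; exact norm_nonneg _
      · have h6 := (S z).le_opNorm (V'.symm z)
        rw [hu, real_inner_self_eq_norm_sq, Real.norm_of_nonneg (by positivity)] at h6
        have h7 := nrm h S hS z
        have h8 : √m * ‖z‖ ^ 2 ≤ ‖z‖ * ‖V'.symm z‖ := by
          calc √m * ‖z‖ ^ 2 ≤ √m * (‖S z‖ * ‖V'.symm z‖) :=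
                mul_le_mul_of_nonneg_left h6 hs.le
            _ = (√m * ‖S z‖) * ‖V'.symm z‖ := by ring
            _ ≤ ‖z‖ * ‖V'.symm z‖ := mul_le_mul_of_nonneg_right h7 (norm_nonneg _)
        have h9 : ‖z‖ * (√m * ‖z‖) ≤ ‖z‖ * ‖V'.symm z‖ := by nlinarith
        exact le_of_mul_le_mul_left h9 h0
    rw [← Finset.mul_sum]
    have hK := hg.Kpos
    calc K * √m * ∑ b, ‖(fun i => ⟪z, y i⟫ : {i : Fin m // id i = b} → ℝ)‖
        ≤ K * √m * ∑ b, |⟪z, y b⟫| :=
          mul_le_mul_of_nonneg_left (Finset.sum_le_sum fun b _ => h1 b) (by positivity)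
      _ ≤ K * √m * (√m * √(∑ b, ⟪z, y b⟫ ^ 2)) :=
          mul_le_mul_of_nonneg_left h4 (by positivity)
      _ = K / c * √m * (√m * (c * √(∑ b, ⟪z, y b⟫ ^ 2))) := by field_simp
      _ ≤ K / c * √m * (√m * ‖z‖) := by gcongr
      _ ≤ K / c * √m * ‖V'.symm z‖ := by gcongr
  · have h1 : K / c ≤ 6 := by rw [div_le_iff₀ hc]; exact hg.le
    exact mul_le_mul_of_nonneg_right h1 hs.le

end

/-- `sup_X inf_{Y, n(Y) = 1} d(X, Y)` over the `m`-dimensional real normed spaces `X` such that
`X` or the dual space of `X` embeds isometrically into some `L_1(μ)`. -/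
noncomputable def maxDistL1 (m : ℕ) : ℝ≥0∞ :=
  ⨆ X : NSpace m, ⨆ _ : EmbedsL1 X.carrier ∨ EmbedsL1 (StrongDual ℝ X.carrier),
    ⨅ Y : NSpace m, ⨅ _ : numIndex Y.carrier = 1, bmDist X.carrier Y.carrier

theorem maxDistL1_bounds {m : ℕ} (hm : 1 ≤ m) :
    ENNReal.ofReal (2 / 3 * √m) ≤ maxDistL1 m ∧ maxDistL1 m ≤ ENNReal.ofReal (6 * √m) := by
  refine ⟨?_, ?_⟩
  · refine (H98.inf_sqrt (by omega)).trans ?_
    exact le_iSup_of_le (⟨EuclideanSpace ℝ (Fin m), by simp⟩ : NSpace m)
      (le_iSup_of_le (Or.inl (embedsL1_hilbert m)) le_rfl)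
  · refine iSup_le fun X => iSup_le fun hX => ?_
    have key : ∃ β : Fin m → Fin m, bmDist X.carrier (CL β) ≤ ENNReal.ofReal (6 * √m) := by
      rcases hX with hX | hX
      · obtain ⟨Ω, _, ν, f, S, _, hf, hS⟩ := exists_position hm X.carrier X.finrank_eq hX
        exact dist_cube hm hf S hS
      · have hfr : Module.finrank ℝ (StrongDual ℝ X.carrier) = m := by
          have e1 : Module.finrank ℝ (StrongDual ℝ X.carrier) =
              Module.finrank ℝ (Module.Dual ℝ X.carrier) :=
            (LinearMap.toContinuousLinearMap (𝕜 := ℝ) (E := X.carrier)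
              (F' := ℝ)).finrank_eq.symm
          rw [e1, Subspace.dual_finrank_eq]
          exact X.finrank_eq
        obtain ⟨Ω, _, ν, f, S, _, hf, hS⟩ := exists_position hm _ hfr hX
        exact dist_cross X.finrank_eq hm hf S hS
    obtain ⟨β, hβ⟩ := key
    exact (iInf_le_of_le (⟨CL β, CL_finrank β⟩ : NSpace m)
      (iInf_le_of_le (CL_numIndex hm β) hβ))

end D7L
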