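import Pool.Agent.H.MP_d7d3dc_an.helper67.Lewis
import Pool.Agent.H.MP_d7d3dc_an.h17.GB

/-!
MP_d7d3dc_an, subspaces of `L_1` (helper67): embeddings into `L_1`.
-/

set_option autoImplicit false

namespace D7L

open MeasureTheory ProbabilityTheory Finset
open scoped RealInnerProductSpace BigOperators

/-- The real normed space `X` embeds isometrically (by a linear map) into `L_1(μ)` for some
measure space `(Ω, μ)`. -/
def EmbedsL1 (X : Type) [NormedAddCommGroup X] [NormedSpace ℝ X] : Prop :=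
  ∃ (Ω : Type) (_ : MeasurableSpace Ω) (μ : Measure Ω), Nonempty (X →ₗᵢ[ℝ] Lp ℝ 1 μ)

/-- the position of a space which embeds into `L_1`. -/
theorem exists_position {m : ℕ} (hm : 1 ≤ m) (X : Type) [NormedAddCommGroup X] [NormedSpace ℝ X]
    [FiniteDimensional ℝ X] (hX : Module.finrank ℝ X = m) (h : EmbedsL1 X) :
    ∃ (Ω : Type) (_ : MeasurableSpace Ω) (ν : Measure Ω) (f : Ω → EE m) (S : EE m ≃ₗ[ℝ] X),
      IsProbabilityMeasure ν ∧ Iso ν m f ∧ ∀ x, √m * ‖S x‖ = N1 ν f x := by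
  obtain ⟨Ω, _, μ, ⟨i⟩⟩ := h
  let S₀ : EE m ≃ₗ[ℝ] X := LinearEquiv.ofFinrankEq _ _ (by rw [hX]; simp)
  let e : Fin m → EE m := fun j => EuclideanSpace.single j (1 : ℝ)
  let F : Ω → EE m := fun ω => WithLp.toLp 2 (fun j => (i (S₀ (e j)) : Ω → ℝ) ω)
  have hFj : ∀ j, Measurable fun ω => F ω j := fun j =>
    (Lp.stronglyMeasurable (i (S₀ (e j)))).measurable
  have hFm : Measurable F := by
    have h1 : Measurable fun ω => (fun j => (i (S₀ (e j)) : Ω → ℝ) ω) :=
      measurable_pi_lambda _ fun j => (Lp.stronglyMeasurable (i (S₀ (e j)))).measurable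
    exact (WithLp.measurable_toLp 2 (Fin m → ℝ)).comp h1
  have hFji : ∀ j, Integrable (fun ω => F ω j) μ := fun j => L1.integrable_coeFn _
  have hFi : Integrable F μ := by
    refine ⟨hFm.aestronglyMeasurable, ?_⟩
    have h2 : Integrable (fun ω => ∑ j, ‖F ω j‖) μ :=
      integrable_finsetSum _ fun j _ => (hFji j).norm
    refine h2.2.mono (Filter.Eventually.of_forall fun ω => ?_)
    rw [Real.norm_of_nonneg (Finset.sum_nonneg fun j _ => norm_nonneg _)]
    have h3 : F ω = ∑ j, (F ω j) • e j := (D546neg.sum_single (F ω)).symm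
    calc ‖F ω‖ = ‖∑ j, (F ω j) • e j‖ := by rw [← h3]
      _ ≤ ∑ j, ‖(F ω j) • e j‖ := norm_sum_le _ _
      _ = ∑ j, ‖F ω j‖ := by
        refine Finset.sum_congr rfl fun j _ => ?_
        rw [norm_smul]
        simp [e]
  have hnorm : ∀ x, ‖S₀ x‖ = ∫ ω, |⟪x, F ω⟫| ∂μ := by
    intro x
    rw [← i.norm_map, L1.norm_eq_integral_norm]
    have h1 : i (S₀ x) = ∑ j, x j • i (S₀ (e j)) := by
      conv_lhs => rw [← D546neg.sum_single x]
      simp only [map_sum, map_smul]
      rfl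
    have h2 : (i (S₀ x) : Ω → ℝ) =ᵐ[μ] fun ω => ⟪x, F ω⟫ := by
      rw [h1]
      have h3 : ((∑ j, x j • i (S₀ (e j)) : Lp ℝ 1 μ) : Ω → ℝ) =ᵐ[μ]
          fun ω => ∑ j, ((x j • i (S₀ (e j)) : Lp ℝ 1 μ) : Ω → ℝ) ω := by
        filter_upwards [Lp.coeFn_finsetSum Finset.univ fun j => x j • i (S₀ (e j))] with ω hω
        rw [hω, Finset.sum_apply]
      have h4 : ∀ᵐ ω ∂μ, ∀ j, ((x j • i (S₀ (e j)) : Lp ℝ 1 μ) : Ω → ℝ) ω =
          x j * (i (S₀ (e j)) : Ω → ℝ) ω := by
        rw [ae_all_iff]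
        intro j
        filter_upwards [Lp.coeFn_smul (x j) (i (S₀ (e j)))] with ω hω
        rw [hω]
        rfl
      filter_upwards [h3, h4] with ω hω hω'
      rw [hω, PiLp.inner_apply]
      refine Finset.sum_congr rfl fun j _ => ?_
      rw [hω' j]
      simp [F, mul_comm]
    refine integral_congr_ae ?_
    filter_upwards [h2] with ω hω
    rw [hω, Real.norm_eq_abs]
  obtain ⟨ν, f, T, hν, hf, hT⟩ := lewis hm hFi hFm (fun x hx => by
    rw [← hnorm, norm_eq_zero] at hx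
    exact (LinearEquiv.map_eq_zero_iff S₀).1 hx)
  refine ⟨Ω, inferInstance, ν, f, T.trans S₀, hν, hf, fun x => ?_⟩
  rw [LinearEquiv.trans_apply, hnorm, hT]

/-- Hilbert spaces embed into `L_1`. -/
theorem embedsL1_hilbert (m : ℕ) : EmbedsL1 (EE m) := by
  have hpi := Real.pi_pos
  have hc : 0 < √(2 / Real.pi) := by positivity
  refine ⟨EE m, inferInstance, D546neg.γ m, ⟨?_⟩⟩
  have hint : ∀ x : EE m, MemLp (fun g : EE m => (√(2 / Real.pi))⁻¹ * ⟪x, g⟫) 1 (D546neg.γ m) := by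
    intro x
    rw [memLp_one_iff_integrable]
    exact (D546neg.integrable_inner x).const_mul _
  let L : EE m →ₗ[ℝ] Lp ℝ 1 (D546neg.γ m) :=
    { toFun := fun x => (hint x).toLp _
      map_add' := by
        intro x y
        rw [← MemLp.toLp_add]
        refine (MemLp.toLp_eq_toLp_iff _ _).2 (Filter.Eventually.of_forall fun g => ?_)
        simp only [Pi.add_apply, inner_add_left]
        ring
      map_smul' := by
        intro c x
        rw [RingHom.id_apply, ← MemLp.toLp_const_smul]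
        refine (MemLp.toLp_eq_toLp_iff _ _).2 (Filter.Eventually.of_forall fun g => ?_)
        simp only [Pi.smul_apply, real_inner_smul_left, smul_eq_mul]
        ring }
  refine { L with norm_map' := fun x => ?_ }
  show ‖(hint x).toLp _‖ = ‖x‖
  rw [L1.norm_eq_integral_norm]
  have h0 : ∫ a, ‖((hint x).toLp _ : EE m → ℝ) a‖ ∂(D546neg.γ m) =
      ∫ g, ‖(√(2 / Real.pi))⁻¹ * ⟪x, g⟫‖ ∂(D546neg.γ m) := by
    refine integral_congr_ae ?_
    filter_upwards [(hint x).coeFn_toLp] with g hg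
    rw [hg]
  rw [h0]
  have h1 : ∀ g : EE m, ‖(√(2 / Real.pi))⁻¹ * ⟪x, g⟫‖ = (√(2 / Real.pi))⁻¹ * |⟪x, g⟫| := by
    intro g
    rw [norm_mul, Real.norm_of_nonneg (by positivity), Real.norm_eq_abs]
  rw [integral_congr_ae (Filter.Eventually.of_forall h1), integral_const_mul, D7u.gb_int_abs]
  field_simp

end D7L
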