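import Pool.Agent.H.MP_d7d3dc_an.helper67.Dist

/-!
MP_d7d3dc_an, subspaces of `L_1` (helper67): the distances to `l_∞^m` and `l_1^m`.
-/

set_option autoImplicit false

namespace D7L

open MeasureTheory Finset Pool.Agent.H.MP_d7d3dc_an D7u
open scoped RealInnerProductSpace ENNReal BigOperators

private lemma bm_le {X Y : Type} [NormedAddCommGroup X] [NormedSpace ℝ X] [NormedAddCommGroup Y]
    [NormedSpace ℝ Y] {m : ℕ} (S : EE m ≃ₗ[ℝ] X) (T : EE m ≃ₗ[ℝ] Y) {a b : ℝ} (ha : 0 ≤ a)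
    (hb : 0 ≤ b) (h1 : ∀ z, ‖S z‖ ≤ a * ‖T z‖) (h2 : ∀ z, ‖T z‖ ≤ b * ‖S z‖) :
    bmDist X Y ≤ ENNReal.ofReal (b * a) := by
  have : FiniteDimensional ℝ X := LinearEquiv.finiteDimensional S
  let R : X ≃L[ℝ] Y := (S.symm.trans T).toContinuousLinearEquiv
  refine (iInf_le _ R).trans (ENNReal.ofReal_le_ofReal ?_)
  refine mul_le_mul ?_ ?_ (norm_nonneg _) hb
  · refine ContinuousLinearMap.opNorm_le_bound _ hb fun x => ?_
    have := h2 (S.symm x)
    rwa [S.apply_symm_apply] at this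
  · refine ContinuousLinearMap.opNorm_le_bound _ ha fun y => ?_
    have := h1 (T.symm y)
    rwa [T.apply_symm_apply] at this

private lemma expand {m : ℕ} {e y : Fin m → EE m}
    (hy : ∀ i j, ⟪e i, y j⟫ = if i = j then (1:ℝ) else 0) (z : EE m) :
    ∑ b, ⟪z, y b⟫ • e b = z := by
  have hli : LinearIndependent ℝ y := by
    rw [Fintype.linearIndependent_iff]
    intro g hg' i
    have h3 : ⟪e i, ∑ j, g j • y j⟫ = 0 := by rw [hg', inner_zero_right]
    rw [inner_sum] at h3
    simpa [real_inner_smul_right, hy] using h3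
  have hspan : Submodule.span ℝ (Set.range y) = ⊤ :=
    hli.span_eq_top_of_card_eq_finrank' (by simp)
  have hsp : ∀ w : EE m, (∀ j, ⟪w, y j⟫ = 0) → w = 0 := by
    intro w hw
    have hz : w ∈ Submodule.span ℝ (Set.range y) := by rw [hspan]; trivial
    obtain ⟨g, hg'⟩ := (Submodule.mem_span_range_iff_exists_fun ℝ).1 hz
    have h4 : ⟪w, w⟫ = (0:ℝ) := by
      have h5 : ⟪w, ∑ j, g j • y j⟫ = (0:ℝ) := by
        rw [inner_sum]
        refine Finset.sum_eq_zero fun j _ => ?_
        rw [real_inner_smul_right, hw, mul_zero]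
      rwa [hg'] at h5
    exact inner_self_eq_zero.1 h4
  rw [← sub_eq_zero]
  apply hsp
  intro j
  rw [inner_sub_left, sum_inner]
  simp [real_inner_smul_left, hy]

private lemma expand' {m : ℕ} {e y : Fin m → EE m}
    (hy : ∀ i j, ⟪e i, y j⟫ = if i = j then (1:ℝ) else 0) (z : EE m) :
    ∑ b, ⟪e b, z⟫ • y b = z := by
  have hy' : ∀ i j, ⟪y i, e j⟫ = if i = j then (1:ℝ) else 0 := by
    intro i j
    rw [real_inner_comm, hy]
    simp only [eq_comm]
  have := expand hy' z
  simpa [real_inner_comm] using this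

/-- the coordinate map in a biorthogonal system. -/
private noncomputable def coord {m : ℕ} (e y : Fin m → EE m)
    (hy : ∀ i j, ⟪e i, y j⟫ = if i = j then (1:ℝ) else 0) : EE m ≃ₗ[ℝ] (Fin m → ℝ) where
  toFun z := fun i => ⟪z, y i⟫
  invFun a := ∑ i, a i • e i
  left_inv z := expand hy z
  right_inv a := by
    funext j
    simp [sum_inner, real_inner_smul_left, hy]
  map_add' z w := by
    funext i
    simp [inner_add_left]
  map_smul' c z := by
    funext i
    simp [real_inner_smul_left]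

section
variable {Ω : Type} [MeasurableSpace Ω] {ν : Measure Ω} {m : ℕ} {f : Ω → EE m}

private lemma nrm' {X : Type} [NormedAddCommGroup X] [NormedSpace ℝ X]
    [IsProbabilityMeasure ν] (h : Iso ν m f) (S : EE m ≃ₗ[ℝ] X)
    (hS : ∀ x, √m * ‖S x‖ = N1 ν f x) (x : EE m) : √m * ‖S x‖ ≤ ‖x‖ := by
  rw [hS]; exact h.N1_le x

private lemma cube_aux {X : Type} [NormedAddCommGroup X] [NormedSpace ℝ X] (hm : 1 ≤ m)
    [IsProbabilityMeasure ν] (h : Iso ν m f) (S : EE m ≃ₗ[ℝ] X)
    (hS : ∀ x, √m * ‖S x‖ = N1 ν f x) :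
    bmDist X (Fin m → ℝ) ≤ ENNReal.ofReal (6 * √m) := by
  have hmR : (1:ℝ) ≤ m := by exact_mod_cast hm
  have hs : 0 < √(m:ℝ) := by positivity
  obtain ⟨K, c, e, hg⟩ := exists_good h
  obtain ⟨y, hy⟩ := exists_dual hg.cpos e hg.low'
  have hc := hg.cpos
  have hK := hg.Kpos
  have hy' : ∀ i j, ⟪y i, e j⟫ = if i = j then (1:ℝ) else 0 := by
    intro i j
    rw [real_inner_comm, hy]
    simp only [eq_comm]
  refine (bm_le S (coord y e hy') (a := 1 / c) (b := K * √m) (by positivity) (by positivity)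
    ?_ ?_).trans (ENNReal.ofReal_le_ofReal ?_)
  · intro z
    have h1 : c * ‖z‖ ≤ √m * ‖coord y e hy' z‖ := by
      refine (hg.low z).trans ?_
      rw [Real.sqrt_le_left (by positivity), mul_pow, Real.sq_sqrt (by linarith)]
      have h2 : ∀ i ∈ (Finset.univ : Finset (Fin m)), ⟪e i, z⟫ ^ 2 ≤ ‖coord y e hy' z‖ ^ 2 := by
        intro i _
        rw [← sq_abs]
        refine pow_le_pow_left₀ (abs_nonneg _) ?_ 2
        have h3 := norm_le_pi_norm (coord y e hy' z) i
        rw [Real.norm_eq_abs] at h3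
        rw [real_inner_comm]
        exact h3
      refine (Finset.sum_le_sum h2).trans (le_of_eq ?_)
      simp
    have h5 := nrm' h S hS z
    have h6 : √m * (c * ‖S z‖) ≤ √m * ‖coord y e hy' z‖ := by
      calc √m * (c * ‖S z‖) = c * (√m * ‖S z‖) := by ring
        _ ≤ c * ‖z‖ := mul_le_mul_of_nonneg_left h5 hc.le
        _ ≤ _ := h1
    have h7 := le_of_mul_le_mul_left h6 hs
    rw [div_mul_eq_mul_div, one_mul, le_div_iff₀ hc, mul_comm]
    exact h7
  · intro z
    rw [mul_assoc, hS, pi_norm_le_iff_of_nonneg (mul_nonneg hK.le (N1_nonneg z))]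
    intro i
    rw [Real.norm_eq_abs]
    have := hg.up i z
    rw [real_inner_comm] at this
    exact this
  · have h1 : K * (1 / c) ≤ 6 := by
      rw [mul_one_div, div_le_iff₀ hc]; exact hg.le
    calc K * √m * (1 / c) = K * (1 / c) * √m := by ring
      _ ≤ 6 * √m := mul_le_mul_of_nonneg_right h1 hs.le

private lemma cross_aux {X : Type} [NormedAddCommGroup X] [NormedSpace ℝ X]
    [FiniteDimensional ℝ X] (hX : Module.finrank ℝ X = m) (hm : 1 ≤ m)
    [IsProbabilityMeasure ν] (h : Iso ν m f) (S : EE m ≃ₗ[ℝ] StrongDual ℝ X)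
    (hS : ∀ x, √m * ‖S x‖ = N1 ν f x) :
    bmDist X (PiLp 1 fun _ : Fin m => ℝ) ≤ ENNReal.ofReal (6 * √m) := by
  have hmR : (1:ℝ) ≤ m := by exact_mod_cast hm
  have hs : 0 < √(m:ℝ) := by positivity
  obtain ⟨K, c, e, hg⟩ := exists_good h
  obtain ⟨y, hy⟩ := exists_dual hg.cpos e hg.low'
  have hc := hg.cpos
  have hK := hg.Kpos
  let V : X →ₗ[ℝ] EE m :=
    { toFun := fun x => (InnerProductSpace.toDual ℝ (EE m)).symm
        (LinearMap.toContinuousLinearMap
          { toFun := fun w => S w x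
            map_add' := fun w w' => by simp
            map_smul' := fun t w => by simp })
      map_add' := by
        intro x x'
        rw [← map_add]
        congr 1
        ext w
        simp
      map_smul' := by
        intro t x
        apply ext_inner_right ℝ
        intro w
        rw [InnerProductSpace.toDual_symm_apply, RingHom.id_apply, real_inner_smul_left,
          InnerProductSpace.toDual_symm_apply]
        simp }
  have hV : ∀ x w, ⟪w, V x⟫ = S w x := by
    intro x w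
    rw [real_inner_comm]
    exact InnerProductSpace.toDual_symm_apply
  have hVinj : Function.Injective V := by
    rw [injective_iff_map_eq_zero]
    intro x hx
    have h1 : ∀ g : StrongDual ℝ X, g x = 0 := by
      intro g
      have h2 := hV x (S.symm g)
      rwa [hx, inner_zero_right, S.apply_symm_apply, eq_comm] at h2
    by_contra hne
    obtain ⟨g, hg1, hg2⟩ := exists_dual_vector ℝ x (norm_ne_zero_iff.2 hne)
    rw [h1 g] at hg2
    exact hne (norm_eq_zero.1 (by simpa using hg2.symm))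
  let V' : X ≃ₗ[ℝ] EE m := LinearEquiv.ofInjectiveOfFinrankEq V hVinj (by rw [hX]; simp)
  have hV' : ∀ x, V' x = V x := fun x => rfl
  have hu : ∀ z w, S w (V'.symm z) = ⟪w, z⟫ := by
    intro z w
    rw [← hV, ← hV', V'.apply_symm_apply]
  let T : EE m ≃ₗ[ℝ] PiLp 1 fun _ : Fin m => ℝ :=
    (coord e y hy).trans (WithLp.linearEquiv 1 ℝ (Fin m → ℝ)).symm
  have hT : ∀ z, ‖T z‖ = ∑ i, |⟪z, y i⟫| := by
    intro z
    rw [PiLp.norm_eq_of_L1]
    rfl
  refine (bm_le V'.symm T (a := K * √m) (b := 1 / c) (by positivity) (by positivity)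
    ?_ ?_).trans (ENNReal.ofReal_le_ofReal ?_)
  · intro z
    rw [hT]
    conv_lhs => rw [← expand hy z]
    rw [map_sum]
    refine (norm_sum_le _ _).trans ?_
    rw [Finset.mul_sum]
    refine Finset.sum_le_sum fun i _ => ?_
    rw [map_smul, norm_smul, Real.norm_eq_abs, mul_comm]
    refine mul_le_mul_of_nonneg_right ?_ (abs_nonneg _)
    refine NormedSpace.norm_le_dual_bound ℝ _ (mul_nonneg hK.le hs.le) fun g => ?_
    obtain ⟨w, rfl⟩ := S.surjective g
    rw [hu, Real.norm_eq_abs, real_inner_comm, mul_assoc, hS]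
    exact hg.up i w
  · intro z
    rw [hT]
    have h3 : c * √(∑ b, ⟪z, y b⟫ ^ 2) ≤ ‖z‖ := by
      have := hg.low' fun b => ⟪z, y b⟫
      rwa [expand hy z] at this
    have h4 : ∑ b, |⟪z, y b⟫| ≤ √m * √(∑ b, ⟪z, y b⟫ ^ 2) := by
      rw [← Real.sqrt_mul (by positivity)]
      apply Real.le_sqrt_of_sq_le
      have := sq_sum_le_card_mul_sum_sq (s := (Finset.univ : Finset (Fin m)))
        (f := fun b => |⟪z, y b⟫|)
      simpa [sq_abs] using this
    have h5 : √m * ‖z‖ ≤ ‖V'.symm z‖ := by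
      rcases (norm_nonneg z).eq_or_lt with h0 | h0
      · rw [← h0, mul_zero]; exact norm_nonneg _
      · have h6 := (S z).le_opNorm (V'.symm z)
        rw [hu, real_inner_self_eq_norm_sq, Real.norm_of_nonneg (by positivity)] at h6
        have h7 := nrm' h S hS z
        have h8 : √m * ‖z‖ ^ 2 ≤ ‖z‖ * ‖V'.symm z‖ := by
          calc √m * ‖z‖ ^ 2 ≤ √m * (‖S z‖ * ‖V'.symm z‖) :=
                mul_le_mul_of_nonneg_left h6 hs.le
            _ = (√m * ‖S z‖) * ‖V'.symm z‖ := by ring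
            _ ≤ ‖z‖ * ‖V'.symm z‖ := mul_le_mul_of_nonneg_right h7 (norm_nonneg _)
        have h9 : ‖z‖ * (√m * ‖z‖) ≤ ‖z‖ * ‖V'.symm z‖ := by nlinarith
        exact le_of_mul_le_mul_left h9 h0
    rw [div_mul_eq_mul_div, one_mul, le_div_iff₀ hc]
    calc (∑ b, |⟪z, y b⟫|) * c ≤ (√m * √(∑ b, ⟪z, y b⟫ ^ 2)) * c :=
          mul_le_mul_of_nonneg_right h4 hc.le
      _ = √m * (c * √(∑ b, ⟪z, y b⟫ ^ 2)) := by ring
      _ ≤ √m * ‖z‖ := mul_le_mul_of_nonneg_left h3 hs.le
      _ ≤ _ := h5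
  · have h1 : K * (1 / c) ≤ 6 := by
      rw [mul_one_div, div_le_iff₀ hc]; exact hg.le
    calc 1 / c * (K * √m) = K * (1 / c) * √m := by ring
      _ ≤ 6 * √m := mul_le_mul_of_nonneg_right h1 hs.le

end

/-- subspaces of `L_1` and the cube. -/
theorem bmDist_cube {m : ℕ} (hm : 1 ≤ m) (X : NSpace m) (hX : EmbedsL1 X.carrier) :
    bmDist X.carrier (Fin m → ℝ) ≤ ENNReal.ofReal (6 * √m) := by
  obtain ⟨Ω, _, ν, f, S, _, hf, hS⟩ := exists_position hm X.carrier X.finrank_eq hX
  exact cube_aux hm hf S hS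

/-- spaces with dual in `L_1` and the cross-polytope. -/
theorem bmDist_cross {m : ℕ} (hm : 1 ≤ m) (X : NSpace m)
    (hX : EmbedsL1 (StrongDual ℝ X.carrier)) :
    bmDist X.carrier (PiLp 1 fun _ : Fin m => ℝ) ≤ ENNReal.ofReal (6 * √m) := by
  have hfr : Module.finrank ℝ (StrongDual ℝ X.carrier) = m := by
    have e1 : Module.finrank ℝ (StrongDual ℝ X.carrier) =
        Module.finrank ℝ (Module.Dual ℝ X.carrier) :=
      (LinearMap.toContinuousLinearMap (𝕜 := ℝ) (E := X.carrier)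
        (F' := ℝ)).finrank_eq.symm
    rw [e1, Subspace.dual_finrank_eq]
    exact X.finrank_eq
  obtain ⟨Ω, _, ν, f, S, _, hf, hS⟩ := exists_position hm _ hfr hX
  exact cross_aux X.finrank_eq hm hf S hS

end D7L
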