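import Mathlib

/-!
MP_d7d3dc_an, subspaces of `L_1` (helper67): the Huber function and rotations in a plane.
-/

set_option autoImplicit false

namespace D7L

open scoped RealInnerProductSpace BigOperators

/-- clipping to `[-7/2, 7/2]`. -/
noncomputable def ps (a : ℝ) : ℝ := max (-(7/2)) (min (7/2) a)

/-- the Huber function, a primitive of `ps`. -/
noncomputable def Ps (a : ℝ) : ℝ := ps a * a - ps a ^ 2 / 2

lemma ps_cases (a : ℝ) : (a ≤ -(7/2) ∧ ps a = -(7/2)) ∨ (7/2 ≤ a ∧ ps a = 7/2) ∨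
    (|a| ≤ 7/2 ∧ ps a = a) := by
  unfold ps
  rcases le_total a (-(7/2)) with h | h
  · left
    refine ⟨h, ?_⟩
    rw [max_eq_left]
    exact (min_le_right _ _).trans h
  · rcases le_total (7/2) a with h' | h'
    · right; left
      refine ⟨h', ?_⟩
      rw [min_eq_left h', max_eq_right (by norm_num)]
    · right; right
      refine ⟨abs_le.2 ⟨h, h'⟩, ?_⟩
      rw [min_eq_right h', max_eq_right h]

lemma abs_ps_le (a : ℝ) : |ps a| ≤ 7/2 := by
  rcases ps_cases a with ⟨_, h⟩ | ⟨_, h⟩ | ⟨h0, h⟩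
  · rw [h]; norm_num
  · rw [h]; norm_num
  · rw [h]; exact h0

lemma ps_of_abs_le {a : ℝ} (h : |a| ≤ 7/2) : ps a = a := by
  unfold ps
  rw [abs_le] at h
  rw [min_eq_right h.2, max_eq_right h.1]

lemma ps_mul_le (a : ℝ) : ps a * a ≤ a ^ 2 := by
  rcases ps_cases a with ⟨h0, h⟩ | ⟨h0, h⟩ | ⟨h0, h⟩ <;> rw [h] <;> nlinarith

lemma le_Ps {h : ℝ} (hh : |h| ≤ 7/2) (b : ℝ) : h * b - h ^ 2 / 2 ≤ Ps b := by
  rw [abs_le] at hh
  unfold Ps
  rcases ps_cases b with ⟨h0, h1⟩ | ⟨h0, h1⟩ | ⟨_, h1⟩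
  · rw [h1]
    nlinarith [mul_nonneg (by linarith : (0:ℝ) ≤ 7/2 + h) (by linarith : (0:ℝ) ≤ -b - 7/4 + h/2)]
  · rw [h1]
    nlinarith [mul_nonneg (by linarith : (0:ℝ) ≤ 7/2 - h) (by linarith : (0:ℝ) ≤ b - 7/4 - h/2)]
  · rw [h1]
    nlinarith [sq_nonneg (b - h)]

lemma Ps_le_add (a b : ℝ) : Ps a ≤ Ps b + 7/2 * |a - b| := by
  have h1 := le_Ps (abs_ps_le a) b
  have h2 : ps a * (a - b) ≤ 7/2 * |a - b| := by
    calc ps a * (a - b) ≤ |ps a * (a - b)| := le_abs_self _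
      _ = |ps a| * |a - b| := abs_mul _ _
      _ ≤ 7/2 * |a - b| := mul_le_mul_of_nonneg_right (abs_ps_le a) (abs_nonneg _)
  have h3 : Ps a = ps a * b - ps a ^ 2 / 2 + ps a * (a - b) := by unfold Ps; ring
  linarith

lemma Ps_lip (a b : ℝ) : |Ps a - Ps b| ≤ 7/2 * |a - b| := by
  rw [abs_le]
  have h1 := Ps_le_add a b
  have h2 := Ps_le_add b a
  rw [abs_sub_comm b a] at h2
  constructor <;> linarith

lemma Ps_zero : Ps 0 = 0 := by
  have : ps 0 = 0 := ps_of_abs_le (by norm_num)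
  unfold Ps; rw [this]; norm_num

lemma abs_Ps_le (a : ℝ) : |Ps a| ≤ 7/2 * |a| := by
  have := Ps_lip a 0
  rwa [Ps_zero, sub_zero, sub_zero] at this

lemma Ps_continuous : Continuous Ps := by
  unfold Ps ps; fun_prop

lemma ps_continuous : Continuous ps := by
  unfold ps; fun_prop

/-- the second difference of the Huber function. -/
lemma Ps_second (a d e : ℝ) (hd : |d| ≤ 1/2) (he : |e| ≤ 1/2) :
    ps a * (d + e) + (if |a| ≤ 3 then (d ^ 2 + e ^ 2) / 2 else 0) ≤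
      Ps (a + d) + Ps (a + e) - 2 * Ps a := by
  split_ifs with h
  · have h1 : ps a = a := ps_of_abs_le (by linarith)
    have h2 : ps (a + d) = a + d := ps_of_abs_le ((abs_add_le a d).trans (by linarith))
    have h3 : ps (a + e) = a + e := ps_of_abs_le ((abs_add_le a e).trans (by linarith))
    unfold Ps
    rw [h1, h2, h3]
    apply le_of_eq
    ring
  · have h1 := le_Ps (abs_ps_le a) (a + d)
    have h2 := le_Ps (abs_ps_le a) (a + e)
    have h3 : Ps a = ps a * a - ps a ^ 2 / 2 := rfl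
    rw [h3]
    nlinarith

section rot
variable {H : Type*} [NormedAddCommGroup H] [InnerProductSpace ℝ H]

/-- rotation in the plane of `U`, `V`. -/
noncomputable def rot (c t : ℝ) (U V x : H) : H :=
  x + ((c - 1) * ⟪x, U⟫ - t * ⟪x, V⟫) • U + ((c - 1) * ⟪x, V⟫ + t * ⟪x, U⟫) • V

lemma inner_rot {c t : ℝ} (hct : c ^ 2 + t ^ 2 = 1) {U V : H} (hU : ⟪U, U⟫ = 1) (hV : ⟪V, V⟫ = 1)
    (hUV : ⟪U, V⟫ = 0) (x y : H) : ⟪rot c t U V x, rot c t U V y⟫ = ⟪x, y⟫ := by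
  have hVU : ⟪V, U⟫ = 0 := by rw [real_inner_comm]; exact hUV
  unfold rot
  simp only [inner_add_left, inner_add_right, real_inner_smul_left, real_inner_smul_right, hU, hV,
    hUV, hVU]
  rw [real_inner_comm y U, real_inner_comm y V]
  linear_combination (⟪x, U⟫ * ⟪y, U⟫ + ⟪x, V⟫ * ⟪y, V⟫) * hct

lemma inner_rot_right (c t : ℝ) (U V x f : H) :
    ⟪rot c t U V x, f⟫ = ⟪x, f⟫ + ((c - 1) * (⟪x, U⟫ * ⟪U, f⟫ + ⟪x, V⟫ * ⟪V, f⟫) +
      t * (⟪x, U⟫ * ⟪V, f⟫ - ⟪x, V⟫ * ⟪U, f⟫)) := by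
  unfold rot
  simp only [inner_add_left, real_inner_smul_left]
  ring

end rot

end D7L
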