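import Pool.Agent.H.MP_d7d3dc_an.helper67.Sys

/-!
MP_d7d3dc_an, subspaces of `L_1` (helper67): the extremal position (D. R. Lewis, `p = 1`).
-/

set_option autoImplicit false

namespace D7L

open MeasureTheory Finset
open scoped RealInnerProductSpace BigOperators

section lewis
variable {Ω : Type} [MeasurableSpace Ω] {μ : Measure Ω} {m : ℕ} {F G : Ω → EE m}

/-- operators. -/
abbrev LL (m : ℕ) : Type := EE m →L[ℝ] EE m

/-- `1 + s x ⊗ x`. -/
noncomputable def rk (s : ℝ) (x : EE m) : LL m :=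
  ContinuousLinearMap.id ℝ (EE m) + s • (innerSL ℝ x).smulRight x

lemma rk_apply (s : ℝ) (x y : EE m) : rk s x y = y + (s * ⟪x, y⟫) • x := by
  simp [rk, smul_smul]

lemma rk_det (s : ℝ) {x : EE m} (hx : ‖x‖ = 1) : (rk s x).det = 1 + s := by
  classical
  let B := (EuclideanSpace.basisFun (Fin m) ℝ).toBasis
  have h0 : (rk s x).det = LinearMap.det (rk s x : EE m →ₗ[ℝ] EE m) := rfl
  rw [h0, ← LinearMap.det_toMatrix B]
  have h1 : LinearMap.toMatrix B B (rk s x : EE m →ₗ[ℝ] EE m)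
      = 1 + Matrix.replicateCol Unit (fun i => s * x i)
          * Matrix.replicateRow Unit (fun i => x i) := by
    ext i j
    rw [LinearMap.toMatrix_apply]
    have h2 : (B j : EE m) = EuclideanSpace.single j (1 : ℝ) := by
      simp [B]
    have h3 : ⟪x, EuclideanSpace.single j (1 : ℝ)⟫ = x j := by
      simp [EuclideanSpace.inner_single_right]
    have h4 : B.repr (rk s x (B j)) i = (rk s x (B j)) i := by
      simp [B]
    rw [ContinuousLinearMap.coe_coe, h4, h2, rk_apply, h3]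
    simp only [PiLp.add_apply, PiLp.smul_apply, PiLp.single_apply, smul_eq_mul,
      Matrix.add_apply, Matrix.one_apply, Matrix.mul_apply,
      Matrix.replicateCol_apply, Matrix.replicateRow_apply, Finset.univ_unique,
      Finset.sum_singleton]
    ring
  rw [h1, Matrix.det_one_add_replicateCol_mul_replicateRow]
  have h6 : ∑ i, (x i) ^ 2 = 1 := by
    have := EuclideanSpace.norm_sq_eq x
    rw [hx] at this
    simpa using this.symm
  have h5 : (fun i => x i) ⬝ᵥ (fun i => s * x i) = s := by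
    simp only [dotProduct]
    rw [show (∑ i, x i * (s * x i)) = s * ∑ i, (x i) ^ 2 from by
      rw [Finset.mul_sum]; exact Finset.sum_congr rfl fun i _ => by ring]
    rw [h6, mul_one]
  rw [h5]

/-- the norm on operators. -/
noncomputable def ph (μ : Measure Ω) (F : Ω → EE m) (T : LL m) : ℝ := ∫ ω, ‖T (F ω)‖ ∂μ

lemma ph_nonneg (T : LL m) : 0 ≤ ph μ F T := integral_nonneg fun _ => norm_nonneg _

lemma ph_smul (c : ℝ) (T : LL m) : ph μ F (c • T) = |c| * ph μ F T := by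
  unfold ph
  rw [← integral_const_mul]
  refine integral_congr_ae (Filter.Eventually.of_forall fun ω => ?_)
  simp only [smul_apply, norm_smul, Real.norm_eq_abs]

lemma ph_int (hF : Integrable F μ) (T : LL m) : Integrable (fun ω => ‖T (F ω)‖) μ :=
  (T.integrable_comp hF).norm

lemma ph_pos (hF : Integrable F μ)
    (hnd : ∀ x : EE m, ∫ ω, |⟪x, F ω⟫| ∂μ = 0 → x = 0) {T : LL m} (hT : T ≠ 0) :
    0 < ph μ F T := by
  rcases (ph_nonneg (μ := μ) (F := F) T).eq_or_lt with h0 | h0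
  · exfalso
    apply hT
    have h1 : ContinuousLinearMap.adjoint T = 0 := by
      ext1 x
      apply hnd
      refine le_antisymm ?_ (integral_nonneg fun _ => abs_nonneg _)
      have h2 : ∫ ω, |⟪ContinuousLinearMap.adjoint T x, F ω⟫| ∂μ ≤
          ∫ ω, ‖x‖ * ‖T (F ω)‖ ∂μ := by
        refine integral_mono ?_ ((ph_int hF T).const_mul _) fun ω => ?_
        · exact (hF.const_inner _).abs
        · show |⟪ContinuousLinearMap.adjoint T x, F ω⟫| ≤ ‖x‖ * ‖T (F ω)‖
          rw [ContinuousLinearMap.adjoint_inner_left]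
          exact abs_real_inner_le_norm _ _
      rw [integral_const_mul] at h2
      have h3 : ∫ ω, ‖T (F ω)‖ ∂μ = 0 := h0.symm
      rwa [h3, mul_zero] at h2
    have h4 := congrArg ContinuousLinearMap.adjoint h1
    rwa [ContinuousLinearMap.adjoint_adjoint, map_zero] at h4
  · exact h0

lemma det_smul' (c : ℝ) (A : LL m) : (c • A).det = c ^ m * A.det := by
  have h : (c • A).det = LinearMap.det (c • (A : EE m →ₗ[ℝ] EE m)) := rfl
  rw [h, LinearMap.det_smul]
  simp [ContinuousLinearMap.det]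

lemma det_zero' (hm : 1 ≤ m) : (0 : LL m).det = 0 := by
  have h : (0 : LL m).det = LinearMap.det (0 : EE m →ₗ[ℝ] EE m) := rfl
  rw [h, LinearMap.det_zero, finrank_euclideanSpace, Fintype.card_fin, zero_pow (by omega)]

lemma det_comp' (A B : LL m) : (A.comp B).det = A.det * B.det := by
  simp only [ContinuousLinearMap.det, ContinuousLinearMap.toLinearMap_comp]
  exact LinearMap.det_comp _ _

/-- the extremal operator. -/
theorem exists_extremal (hm : 1 ≤ m) (hF : Integrable F μ)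
    (hnd : ∀ x : EE m, ∫ ω, |⟪x, F ω⟫| ∂μ = 0 → x = 0) :
    ∃ T : LL m, ph μ F T = 1 ∧ ∀ S : LL m, |S.det| ≤ ph μ F (S.comp T) ^ m := by
  have hpos := @ph_pos Ω _ μ m F hF hnd
  have hnt : Nontrivial (EE m) := by
    have : Nonempty (Fin m) := ⟨⟨0, by omega⟩⟩
    infer_instance
  let D : LL m → ℝ := fun T => |T.det| / ph μ F T ^ m
  have hcph : ContinuousOn (ph μ F) (Metric.sphere (0 : LL m) 1) := by
    refine continuousOn_of_dominated (bound := fun ω => ‖F ω‖) ?_ ?_ hF.norm ?_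
    · intro T _
      exact (T.continuous.comp_aestronglyMeasurable hF.aestronglyMeasurable).norm
    · intro T hT
      refine Filter.Eventually.of_forall fun ω => ?_
      rw [norm_norm]
      have := T.le_opNorm (F ω)
      rw [mem_sphere_zero_iff_norm.1 hT, one_mul] at this
      exact this
    · refine Filter.Eventually.of_forall fun ω => Continuous.continuousOn ?_
      fun_prop
  have hne : ∀ T ∈ Metric.sphere (0 : LL m) 1, T ≠ 0 := by
    intro T hT h
    rw [h] at hT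
    simp at hT
  have hcD : ContinuousOn D (Metric.sphere (0 : LL m) 1) := by
    refine ContinuousOn.div ?_ (hcph.pow m) fun T hT => ?_
    · exact (continuous_abs.comp ContinuousLinearMap.continuous_det).continuousOn
    · exact pow_ne_zero _ (hpos (hne T hT)).ne'
  have hid : ContinuousLinearMap.id ℝ (EE m) ∈ Metric.sphere (0 : LL m) 1 := by
    rw [mem_sphere_zero_iff_norm]
    exact ContinuousLinearMap.norm_id
  obtain ⟨T0, hT0, hmax⟩ := (isCompact_sphere (0 : LL m) 1).exists_isMaxOn ⟨_, hid⟩ hcD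
  have hDs : ∀ (c : ℝ), c ≠ 0 → ∀ T : LL m, D (c • T) = D T := by
    intro c hc T
    simp only [D]
    rw [det_smul', ph_smul, abs_mul, mul_pow, abs_pow]
    have : |c| ^ m ≠ 0 := pow_ne_zero _ (abs_ne_zero.2 hc)
    rw [mul_div_mul_left _ _ this]
  have hall : ∀ T : LL m, T ≠ 0 → D T ≤ D T0 := by
    intro T hT
    have hn : ‖T‖ ≠ 0 := norm_ne_zero_iff.2 hT
    have h1 : ‖T‖⁻¹ • T ∈ Metric.sphere (0 : LL m) 1 := by
      rw [mem_sphere_zero_iff_norm, norm_smul, norm_inv, norm_norm, inv_mul_cancel₀ hn]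
    have h2 := hmax h1
    rwa [Set.mem_ofPred_eq, hDs _ (inv_ne_zero hn)] at h2
  have hp0 := hpos (hne T0 hT0)
  refine ⟨(ph μ F T0)⁻¹ • T0, ?_, fun S => ?_⟩
  · rw [ph_smul, abs_of_pos (inv_pos.2 hp0), inv_mul_cancel₀ hp0.ne']
  · obtain ⟨T1, hT1⟩ : ∃ T1, T1 = (ph μ F T0)⁻¹ • T0 := ⟨_, rfl⟩
    rw [← hT1]
    have hD1 : D T1 = |T1.det| := by
      simp only [D]
      have : ph μ F T1 = 1 := by
        rw [hT1, ph_smul, abs_of_pos (inv_pos.2 hp0), inv_mul_cancel₀ hp0.ne']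
      rw [this, one_pow, div_one]
    have hD10 : D T1 = D T0 := by rw [hT1]; exact hDs _ (inv_ne_zero hp0.ne') _
    have hDid : 0 < D (ContinuousLinearMap.id ℝ (EE m)) := by
      simp only [D]
      have h1 : (ContinuousLinearMap.id ℝ (EE m)).det = 1 := by
        simp [ContinuousLinearMap.det]
      rw [h1, abs_one]
      exact div_pos one_pos (pow_pos (hpos (hne _ hid)) _)
    have hdet1 : 0 < |T1.det| := by
      rw [← hD1, hD10]
      exact hDid.trans_le (hall _ (hne _ hid))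
    by_cases hS : S.comp T1 = 0
    · have h2 : S.det * T1.det = 0 := by
        rw [← det_comp', hS, det_zero' hm]
      have h3 : T1.det ≠ 0 := abs_pos.1 hdet1
      have h4 : S.det = 0 := (mul_eq_zero.1 h2).resolve_right h3
      rw [h4, abs_zero]
      exact pow_nonneg (ph_nonneg _) _
    · have h2 := hall _ hS
      rw [← hD10, hD1] at h2
      simp only [D] at h2
      rw [det_comp', abs_mul, div_le_iff₀ (pow_pos (hpos hS) _), mul_comm |T1.det|] at h2
      exact le_of_mul_le_mul_right h2 hdet1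

private lemma pt_norm {s : ℝ} (hs : 0 < s) {x : EE m} (hx : ‖x‖ = 1) (g : EE m) :
    ‖g + (s * ⟪x, g⟫) • x‖ ≤ ‖g‖ + (s + s ^ 2 / 2) * (⟪x, g⟫ ^ 2 / ‖g‖) := by
  rcases (norm_nonneg g).eq_or_lt with h0 | h0
  · have hg : g = 0 := norm_eq_zero.1 h0.symm
    rw [hg]
    simp
  · have h1 : ‖g + (s * ⟪x, g⟫) • x‖ ^ 2 = ‖g‖ ^ 2 + (2 * s + s ^ 2) * ⟪x, g⟫ ^ 2 := by
      rw [norm_add_sq_real, norm_smul, real_inner_smul_right, real_inner_comm x g, hx,
        Real.norm_eq_abs, mul_one, sq_abs]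
      ring
    have h2 : 0 ≤ (s + s ^ 2 / 2) * (⟪x, g⟫ ^ 2 / ‖g‖) := by positivity
    apply abs_le_of_sq_le_sq' _ (by positivity) |>.2
    rw [h1]
    have h3 : (‖g‖ + (s + s ^ 2 / 2) * (⟪x, g⟫ ^ 2 / ‖g‖)) ^ 2 =
        ‖g‖ ^ 2 + (2 * s + s ^ 2) * ⟪x, g⟫ ^ 2 + ((s + s ^ 2 / 2) * (⟪x, g⟫ ^ 2 / ‖g‖)) ^ 2 := by
      field_simp
      ring
    rw [h3]
    nlinarith [sq_nonneg ((s + s ^ 2 / 2) * (⟪x, g⟫ ^ 2 / ‖g‖))]

lemma w_int (hG : Integrable G μ) (hGm : Measurable G) (x : EE m) :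
    Integrable (fun ω => ⟪x, G ω⟫ ^ 2 / ‖G ω‖) μ := by
  refine (hG.norm.const_mul (‖x‖ ^ 2)).mono ?_ (Filter.Eventually.of_forall fun ω => ?_)
  · refine Measurable.aestronglyMeasurable ?_
    refine Measurable.div ?_ hGm.norm
    exact (((continuous_const.inner continuous_id).measurable.comp hGm)).pow_const 2
  · rw [Real.norm_of_nonneg (by positivity), Real.norm_of_nonneg (by positivity)]
    rcases (norm_nonneg (G ω)).eq_or_lt with h0 | h0
    · rw [← h0]; simp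
    · rw [div_le_iff₀ h0]
      have h1 := abs_real_inner_le_norm x (G ω)
      have h2 : ⟪x, G ω⟫ ^ 2 ≤ (‖x‖ * ‖G ω‖) ^ 2 := by
        rw [← sq_abs]; exact pow_le_pow_left₀ (abs_nonneg _) h1 2
      nlinarith

/-- the lower bound for the quadratic form of the extremal position. -/
private lemma w_low (hm : 1 ≤ m) (hG : Integrable G μ) (hGm : Measurable G)
    (h1 : ∫ ω, ‖G ω‖ ∂μ = 1)
    (hext : ∀ S : LL m, |S.det| ≤ (∫ ω, ‖S (G ω)‖ ∂μ) ^ m) {x : EE m} (hx : ‖x‖ = 1) :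
    1 / (m:ℝ) ≤ ∫ ω, ⟪x, G ω⟫ ^ 2 / ‖G ω‖ ∂μ := by
  obtain ⟨w, hw⟩ : ∃ w, w = ∫ ω, ⟪x, G ω⟫ ^ 2 / ‖G ω‖ ∂μ := ⟨_, rfl⟩
  rw [← hw]
  have hmR : (1:ℝ) ≤ m := by exact_mod_cast hm
  have hw0 : 0 ≤ w := by
    rw [hw]; exact integral_nonneg fun _ => by positivity
  have key : ∀ s : ℝ, 0 < s → 1 + s ≤ (1 + (s + s ^ 2 / 2) * w) ^ m := by
    intro s hs
    have h2 := hext (rk s x)
    rw [rk_det s hx, abs_of_pos (by linarith)] at h2
    refine h2.trans (pow_le_pow_left₀ (integral_nonneg fun _ => norm_nonneg _) ?_ m)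
    have h3 : 1 + (s + s ^ 2 / 2) * w =
        ∫ ω, (‖G ω‖ + (s + s ^ 2 / 2) * (⟪x, G ω⟫ ^ 2 / ‖G ω‖)) ∂μ := by
      rw [integral_add hG.norm ((w_int hG hGm x).const_mul _), integral_const_mul, h1, hw]
    rw [h3]
    refine integral_mono (ph_int hG _) (hG.norm.add ((w_int hG hGm x).const_mul _)) fun ω => ?_
    show ‖rk s x (G ω)‖ ≤ ‖G ω‖ + (s + s ^ 2 / 2) * (⟪x, G ω⟫ ^ 2 / ‖G ω‖)
    rw [rk_apply]
    exact pt_norm hs hx _
  have key2 : ∀ s : ℝ, 0 < s → s ≤ 1 → 1 ≤ (m * w) * (1 + 2 * s) := by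
    intro s hs hs1
    have h2 := key s hs
    have hA : 0 ≤ (s + s ^ 2 / 2) * w := by positivity
    have h3 : (1 + (s + s ^ 2 / 2) * w) ^ m ≤ Real.exp (m * ((s + s ^ 2 / 2) * w)) := by
      rw [Real.exp_nat_mul]
      refine pow_le_pow_left₀ (by linarith) ?_ m
      have := Real.add_one_le_exp ((s + s ^ 2 / 2) * w)
      linarith
    have h4 : Real.log (1 + s) ≤ m * ((s + s ^ 2 / 2) * w) := by
      rw [← Real.log_exp (m * ((s + s ^ 2 / 2) * w))]
      exact Real.log_le_log (by linarith) (h2.trans h3)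
    have h5 := Real.one_sub_inv_le_log_of_pos (by linarith : 0 < 1 + s)
    have h6 : 1 - (1 + s)⁻¹ = s * (1 + s)⁻¹ := by field_simp; ring
    rw [h6] at h5
    have h7 : s * (1 + s)⁻¹ ≤ s * (m * w * (1 + s / 2)) := by
      refine (h5.trans h4).trans (le_of_eq ?_)
      ring
    have h8 := le_of_mul_le_mul_left h7 hs
    have h9 : 1 ≤ m * w * (1 + s / 2) * (1 + s) := by
      rwa [inv_le_iff_one_le_mul₀ (by linarith)] at h8
    refine h9.trans ?_
    rw [mul_assoc]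
    refine mul_le_mul_of_nonneg_left ?_ (by positivity)
    nlinarith
  rw [div_le_iff₀ (by linarith), mul_comm]
  by_contra hlt
  rw [not_le] at hlt
  have h10 := key2 ((1 - m * w) / 4) (by linarith) (by nlinarith)
  nlinarith [mul_nonneg (by linarith : (0:ℝ) ≤ m) hw0]

private lemma w_eq_unit (hm : 1 ≤ m) (hG : Integrable G μ) (hGm : Measurable G)
    (h1 : ∫ ω, ‖G ω‖ ∂μ = 1)
    (hext : ∀ S : LL m, |S.det| ≤ (∫ ω, ‖S (G ω)‖ ∂μ) ^ m) {x : EE m} (hx : ‖x‖ = 1) :
    ∫ ω, ⟪x, G ω⟫ ^ 2 / ‖G ω‖ ∂μ = 1 / (m:ℝ) := by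
  have hmR : (1:ℝ) ≤ m := by exact_mod_cast hm
  obtain ⟨i0⟩ : Nonempty (Fin m) := ⟨⟨0, by omega⟩⟩
  obtain ⟨b, hb⟩ : ∃ b : OrthonormalBasis (Fin m) ℝ (EE m), b i0 = x := by
    have hon : Orthonormal ℝ (({i0} : Set (Fin m)).domRestrict (fun _ => x)) := by
      refine ⟨fun _ => hx, fun i j hij => ?_⟩
      exact absurd (Subsingleton.elim i j) hij
    obtain ⟨b, hb⟩ := hon.exists_orthonormalBasis_extension_of_card_eq (by simp)
    exact ⟨b, hb i0 rfl⟩
  have hsum : ∑ k, ∫ ω, ⟪b k, G ω⟫ ^ 2 / ‖G ω‖ ∂μ = 1 := by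
    rw [← integral_finsetSum _ fun k _ => w_int hG hGm (b k), ← h1]
    refine integral_congr_ae (Filter.Eventually.of_forall fun ω => ?_)
    simp only
    rw [← Finset.sum_div]
    have h2 := b.sum_sq_norm_inner_right (G ω)
    simp only [Real.norm_eq_abs, sq_abs] at h2
    rw [h2]
    rcases (norm_nonneg (G ω)).eq_or_lt with h0 | h0
    · rw [← h0]; simp
    · field_simp
  have hz : ∑ k, ((∫ ω, ⟪b k, G ω⟫ ^ 2 / ‖G ω‖ ∂μ) - 1 / (m:ℝ)) = 0 := by
    rw [Finset.sum_sub_distrib, hsum]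
    simp only [Finset.sum_const, Finset.card_univ, Fintype.card_fin, nsmul_eq_mul]
    field_simp
    ring
  have hnn : ∀ k ∈ Finset.univ, 0 ≤ ((∫ ω, ⟪b k, G ω⟫ ^ 2 / ‖G ω‖ ∂μ) - 1 / (m:ℝ)) :=
    fun k _ => sub_nonneg.2 (w_low hm hG hGm h1 hext (b.norm_eq_one k))
  have h3 := (Finset.sum_eq_zero_iff_of_nonneg hnn).1 hz i0 (Finset.mem_univ _)
  rw [hb] at h3
  linarith

private lemma w_eq (hm : 1 ≤ m) (hG : Integrable G μ) (hGm : Measurable G)
    (h1 : ∫ ω, ‖G ω‖ ∂μ = 1)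
    (hext : ∀ S : LL m, |S.det| ≤ (∫ ω, ‖S (G ω)‖ ∂μ) ^ m) (x : EE m) :
    ∫ ω, ⟪x, G ω⟫ ^ 2 / ‖G ω‖ ∂μ = ‖x‖ ^ 2 / (m:ℝ) := by
  rcases (norm_nonneg x).eq_or_lt with h0 | h0
  · have hx : x = 0 := norm_eq_zero.1 h0.symm
    rw [hx]
    simp
  · have h2 : ‖‖x‖⁻¹ • x‖ = 1 := by
      rw [norm_smul, norm_inv, norm_norm, inv_mul_cancel₀ h0.ne']
    have h3 := w_eq_unit hm hG hGm h1 hext h2
    have h4 : ∫ ω, ⟪x, G ω⟫ ^ 2 / ‖G ω‖ ∂μ =
        ‖x‖ ^ 2 * ∫ ω, ⟪‖x‖⁻¹ • x, G ω⟫ ^ 2 / ‖G ω‖ ∂μ := by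
      rw [← integral_const_mul]
      refine integral_congr_ae (Filter.Eventually.of_forall fun ω => ?_)
      simp only
      rw [real_inner_smul_left]
      field_simp
    rw [h4, h3]
    ring

/-- D. R. Lewis' position for `p = 1`. -/
theorem lewis (hm : 1 ≤ m) (hF : Integrable F μ) (hFm : Measurable F)
    (hnd : ∀ x : EE m, ∫ ω, |⟪x, F ω⟫| ∂μ = 0 → x = 0) :
    ∃ (ν : Measure Ω) (f : Ω → EE m) (T : EE m ≃ₗ[ℝ] EE m), IsProbabilityMeasure ν ∧
      Iso ν m f ∧ ∀ x, √m * ∫ ω, |⟪T x, F ω⟫| ∂μ = N1 ν f x := by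
  have hmR : (1:ℝ) ≤ m := by exact_mod_cast hm
  have hsq : √(m:ℝ) ^ 2 = m := Real.sq_sqrt (by linarith)
  obtain ⟨T, hT1, hext⟩ := exists_extremal hm hF hnd
  let G : Ω → EE m := fun ω => T (F ω)
  have hGm : Measurable G := T.continuous.measurable.comp hFm
  have hG : Integrable G μ := T.integrable_comp hF
  have hG1 : ∫ ω, ‖G ω‖ ∂μ = 1 := hT1
  have hextG : ∀ S : LL m, |S.det| ≤ (∫ ω, ‖S (G ω)‖ ∂μ) ^ m := hext
  let i0 : Fin m := ⟨0, by omega⟩
  let e0 : EE m := EuclideanSpace.basisFun (Fin m) ℝ i0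
  have he0 : ‖e0‖ = 1 := (EuclideanSpace.basisFun (Fin m) ℝ).norm_eq_one i0
  let f : Ω → EE m := fun ω => if G ω = 0 then √m • e0 else (√m / ‖G ω‖) • G ω
  have hfm : Measurable f :=
    Measurable.ite (measurableSet_eq_fun hGm measurable_const) measurable_const
      ((measurable_const.div hGm.norm).smul hGm)
  let ν : Measure Ω := μ.withDensity fun ω => ENNReal.ofReal ‖G ω‖
  have hνint : ∀ g : Ω → ℝ, ∫ ω, g ω ∂ν = ∫ ω, ‖G ω‖ * g ω ∂μ := by
    intro g
    rw [integral_withDensity_eq_integral_toReal_smul hGm.norm.ennreal_ofReal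
      (Filter.Eventually.of_forall fun ω => ENNReal.ofReal_lt_top)]
    refine integral_congr_ae (Filter.Eventually.of_forall fun ω => ?_)
    simp only [smul_eq_mul]
    rw [ENNReal.toReal_ofReal (norm_nonneg _)]
  have hprob : IsProbabilityMeasure ν := by
    refine ⟨?_⟩
    rw [withDensity_apply _ MeasurableSet.univ, Measure.restrict_univ,
      ← ofReal_integral_eq_lintegral_ofReal hG.norm
        (Filter.Eventually.of_forall fun ω => norm_nonneg _), hG1, ENNReal.ofReal_one]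
  have hiso : Iso ν m f := by
    refine ⟨hfm, fun ω => ?_, fun x => ?_⟩
    · simp only [f]
      split_ifs with h0
      · rw [norm_smul, he0, mul_one, Real.norm_of_nonneg (Real.sqrt_nonneg _), hsq]
      · have h1 : ‖G ω‖ ≠ 0 := norm_ne_zero_iff.2 h0
        rw [norm_smul, Real.norm_of_nonneg (by positivity), div_mul_cancel₀ _ h1, hsq]
    · rw [hνint]
      have h2 : ∀ ω, ‖G ω‖ * ⟪x, f ω⟫ ^ 2 = m * (⟪x, G ω⟫ ^ 2 / ‖G ω‖) := by
        intro ω
        simp only [f]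
        split_ifs with h0
        · rw [h0]; simp
        · have h1 : ‖G ω‖ ≠ 0 := norm_ne_zero_iff.2 h0
          rw [real_inner_smul_right, mul_pow, div_pow, hsq]
          field_simp
      rw [integral_congr_ae (Filter.Eventually.of_forall h2), integral_const_mul,
        w_eq hm hG hGm hG1 hextG]
      field_simp
  have hN : ∀ x, √m * ∫ ω, |⟪ContinuousLinearMap.adjoint T x, F ω⟫| ∂μ = N1 ν f x := by
    intro x
    unfold N1
    rw [hνint, ← integral_const_mul]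
    refine integral_congr_ae (Filter.Eventually.of_forall fun ω => ?_)
    simp only
    rw [ContinuousLinearMap.adjoint_inner_left]
    show √m * |⟪x, G ω⟫| = ‖G ω‖ * |⟪x, f ω⟫|
    simp only [f]
    split_ifs with h0
    · rw [h0]; simp
    · have h1 : ‖G ω‖ ≠ 0 := norm_ne_zero_iff.2 h0
      rw [real_inner_smul_right, abs_mul, abs_of_nonneg (by positivity : 0 ≤ √(m:ℝ) / ‖G ω‖)]
      field_simp
  have hinj : Function.Injective (ContinuousLinearMap.adjoint T : EE m →ₗ[ℝ] EE m) := by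
    rw [injective_iff_map_eq_zero]
    intro x hx
    have h1 := hN x
    have hx' : ContinuousLinearMap.adjoint T x = 0 := hx
    rw [hx'] at h1
    simp only [inner_zero_left, abs_zero, integral_zero, mul_zero] at h1
    have h2 := hiso.norm_le x
    rw [← h1, mul_zero] at h2
    exact norm_eq_zero.1 (le_antisymm h2 (norm_nonneg _))
  exact ⟨ν, f, LinearEquiv.ofInjectiveEndo _ hinj, hprob, hiso, hN⟩

end lewis

end D7L
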