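import Pool.Agent.H.MP_d7d3dc_an.helper67.Core

/-!
MP_d7d3dc_an, subspaces of `L_1` (helper67): the lower bound for the quadratic form `MM`.
-/

set_option autoImplicit false

namespace D7L

open MeasureTheory Finset
open scoped RealInnerProductSpace BigOperators

section low
variable {Ω : Type} [MeasurableSpace Ω] {ν : Measure Ω} {m : ℕ} {f : Ω → EE m}

private lemma sum_q (b : OrthonormalBasis (Fin m) ℝ (EE m)) (a y : ℝ) (o g : EE m) :
    ∑ k, (a * ⟪b k, g⟫ - ⟪o, b k⟫ * y) ^ 2 =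
      a ^ 2 * ‖g‖ ^ 2 - 2 * (a * y * ⟪o, g⟫) + y ^ 2 * ‖o‖ ^ 2 := by
  have h1 : ∀ k, (a * ⟪b k, g⟫ - ⟪o, b k⟫ * y) ^ 2 = ‖⟪b k, a • g - y • o⟫‖ ^ 2 := by
    intro k
    rw [Real.norm_eq_abs, sq_abs, inner_sub_right, real_inner_smul_right, real_inner_smul_right,
      real_inner_comm o (b k)]
    ring
  rw [Finset.sum_congr rfl fun k _ => h1 k, b.sum_sq_norm_inner_right, norm_sub_sq_real,
    norm_smul, norm_smul, real_inner_smul_left, real_inner_smul_right, real_inner_comm o g,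
    mul_pow, mul_pow, Real.norm_eq_abs, Real.norm_eq_abs, sq_abs, sq_abs]
  ring

private lemma pt_low {m : ℝ} (hm : 0 < m) (a x y : ℝ) :
    (m * a ^ 2 - 2 * (a * y * x) + y ^ 2) - (5 * m / 36 * (a ^ 2 * x ^ 2) + x ^ 2 / 9 * y ^ 2 +
      4 / m * (x ^ 2 * y ^ 2)) ≤ if |x| ≤ 3 then m * a ^ 2 - 2 * (a * y * x) + y ^ 2 else 0 := by
  split_ifs with h
  · have : 0 ≤ 5 * m / 36 * (a ^ 2 * x ^ 2) + x ^ 2 / 9 * y ^ 2 + 4 / m * (x ^ 2 * y ^ 2) := by
      positivity
    linarith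
  · have hx : 9 ≤ x ^ 2 := by
      have h1 : 3 < |x| := not_le.1 h
      have h2 : |x| ^ 2 = x ^ 2 := sq_abs x
      nlinarith [abs_nonneg x]
    have h1 : 5 / 4 * m * a ^ 2 ≤ 5 * m / 36 * (a ^ 2 * x ^ 2) := by
      have : 0 ≤ 5 * m / 36 * a ^ 2 := by positivity
      nlinarith
    have h2 : y ^ 2 ≤ x ^ 2 / 9 * y ^ 2 := by nlinarith [sq_nonneg y]
    have h3 : 0 ≤ m / 4 * a ^ 2 + 2 * (a * y * x) + 4 / m * (x ^ 2 * y ^ 2) := by
      have : m / 4 * a ^ 2 + 2 * (a * y * x) + 4 / m * (x ^ 2 * y ^ 2) =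
          (m * a + 4 * (x * y)) ^ 2 / (4 * m) := by
        field_simp
        ring
      rw [this]
      positivity
    linarith

/-- the lower bound for the quadratic form. -/
theorem MM_low [IsProbabilityMeasure ν] (hm : 36 ≤ m) (h : Iso ν m f) {O : Fin m → EE m}
    (hO : O ∈ ON m) (hmax : ∀ O' ∈ ON m, FF ν f O' ≤ FF ν f O) {U : EE m}
    (hU : ⟪U, U⟫ = (1:ℝ)) : 7 / 12 ≤ MM ν f O U := by
  have hmR : (36:ℝ) ≤ m := by exact_mod_cast hm
  have hm0 : (0:ℝ) < m := by linarith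
  have hUn : ‖U‖ = 1 := by
    rw [real_inner_self_eq_norm_sq] at hU; nlinarith [norm_nonneg U]
  -- an orthonormal basis containing `U`
  obtain ⟨i0⟩ : Nonempty (Fin m) := ⟨⟨0, by omega⟩⟩
  obtain ⟨b, hb⟩ : ∃ b : OrthonormalBasis (Fin m) ℝ (EE m), b i0 = U := by
    have hon : Orthonormal ℝ (({i0} : Set (Fin m)).domRestrict (fun _ => U)) := by
      refine ⟨fun _ => hUn, fun i j hij => ?_⟩
      exact absurd (Subsingleton.elim i j) hij
    obtain ⟨b, hb⟩ := hon.exists_orthonormalBasis_extension_of_card_eq (by simp)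
    exact ⟨b, hb i0 rfl⟩
  -- abbreviations
  let x : Fin m → Ω → ℝ := fun i ω => ⟪O i, f ω⟫
  let y : Ω → ℝ := fun ω => ⟪U, f ω⟫
  let u : Fin m → ℝ := fun i => ⟪O i, U⟫
  let G : Fin m → ℝ := fun k => ∫ ω, ∑ i, (if |⟪O i, f ω⟫| ≤ 3 then
      (⟪O i, U⟫ * ⟪b k, f ω⟫ - ⟪O i, b k⟫ * ⟪U, f ω⟫) ^ 2 else 0) ∂ν
  have hxb : ∀ i ω, |x i ω| ≤ √m := fun i ω => by
    have := h.abs_inner_le (O i) ω
    rwa [ON_norm hO, mul_one] at this
  have hyb : ∀ ω, |y ω| ≤ √m := fun ω => by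
    have := h.abs_inner_le U ω
    rwa [hUn, mul_one] at this
  have hmx : ∀ i, Measurable (x i) := fun i => h.meas_inner _
  have hmy : Measurable y := h.meas_inner _
  have hsq : √(m:ℝ) ^ 2 = m := Real.sq_sqrt hm0.le
  -- integrability
  have hGi : ∀ k, Integrable (fun ω => ∑ i, (if |⟪O i, f ω⟫| ≤ 3 then
      (⟪O i, U⟫ * ⟪b k, f ω⟫ - ⟪O i, b k⟫ * ⟪U, f ω⟫) ^ 2 else 0)) ν := by
    intro k
    refine integrable_finsetSum _ fun i _ => ?_
    refine integrable_bdd (C := (|⟪O i, U⟫| * √m + |⟪O i, b k⟫| * √m) ^ 2) ?_ fun ω => ?_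
    · exact Measurable.ite (measurableSet_le (hmx i).abs measurable_const)
        ((((h.meas_inner _).const_mul _).sub ((h.meas_inner _).const_mul _)).pow_const 2)
        measurable_const
    · split_ifs
      · rw [abs_pow]
        refine pow_le_pow_left₀ (abs_nonneg _) ?_ 2
        refine (abs_sub _ _).trans ?_
        rw [abs_mul, abs_mul]
        have h1 := h.abs_inner_le (b k) ω
        rw [b.norm_eq_one, mul_one] at h1
        have h2 := hyb ω
        have h3 : |⟪O i, U⟫| * |⟪b k, f ω⟫| ≤ |⟪O i, U⟫| * √m :=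
          mul_le_mul_of_nonneg_left h1 (abs_nonneg _)
        have h4 : |⟪O i, b k⟫| * |⟪U, f ω⟫| ≤ |⟪O i, b k⟫| * √m :=
          mul_le_mul_of_nonneg_left h2 (abs_nonneg _)
        exact add_le_add h3 h4
      · rw [abs_zero]; positivity
  have hxi : ∀ i, Integrable (fun ω => x i ω ^ 2) ν := fun i =>
    integrable_bdd (C := √m ^ 2) ((hmx i).pow_const 2) fun ω => by
      rw [abs_pow]; exact pow_le_pow_left₀ (abs_nonneg _) (hxb i ω) 2
  have hyi : Integrable (fun ω => y ω ^ 2) ν :=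
    integrable_bdd (C := √m ^ 2) (hmy.pow_const 2) fun ω => by
      rw [abs_pow]; exact pow_le_pow_left₀ (abs_nonneg _) (hyb ω) 2
  have hx1 : ∀ i, ∫ ω, x i ω ^ 2 ∂ν = 1 := fun i => by
    have := h.iso (O i)
    rw [ON_norm hO, one_pow] at this
    exact this
  have hy1 : ∫ ω, y ω ^ 2 ∂ν = 1 := by
    have := h.iso U
    rw [hUn, one_pow] at this
    exact this
  have hu1 : ∑ i, u i ^ 2 = 1 := by
    have := ON_parseval hO U U
    rw [hU] at this
    rw [← this]
    exact Finset.sum_congr rfl fun i _ => sq _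
  -- the sum over the basis
  have hsum : ∑ k, G k = ∫ ω, ∑ i, (if |x i ω| ≤ 3 then
      (m * u i ^ 2 - 2 * (u i * y ω * x i ω) + y ω ^ 2) else 0) ∂ν := by
    rw [← integral_finsetSum _ fun k _ => hGi k]
    refine integral_congr_ae (Filter.Eventually.of_forall fun ω => ?_)
    simp only
    rw [Finset.sum_comm]
    refine Finset.sum_congr rfl fun i _ => ?_
    show _ = if |⟪O i, f ω⟫| ≤ 3 then _ else _
    split_ifs with hi
    · rw [sum_q, h.sq, ON_norm hO]
      simp only [x, y, u]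
      ring
    · simp
  -- the pointwise lower bound
  have hlow : 7 / 4 * (m:ℝ) - 6 ≤ ∑ k, G k := by
    rw [hsum]
    have hL : ∫ ω, (m + (m - 2) * y ω ^ 2 - (5 * m / 36 * (∑ i, u i ^ 2 * x i ω ^ 2) +
        (m / 9 + 4) * y ω ^ 2)) ∂ν = 7 / 4 * (m:ℝ) - 6 := by
      have i1 : Integrable (fun ω => (m:ℝ) + (m - 2) * y ω ^ 2) ν :=
        (integrable_const _).add (hyi.const_mul _)
      have i3 : Integrable (fun ω => ∑ i, u i ^ 2 * x i ω ^ 2) ν :=
        integrable_finsetSum _ fun i _ => (hxi i).const_mul _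
      have i2 : Integrable (fun ω => 5 * m / 36 * (∑ i, u i ^ 2 * x i ω ^ 2) +
          (m / 9 + 4) * y ω ^ 2) ν := (i3.const_mul _).add (hyi.const_mul _)
      rw [integral_sub i1 i2, integral_add (integrable_const _) (hyi.const_mul _),
        integral_add (i3.const_mul _) (hyi.const_mul _), integral_const_mul, integral_const_mul,
        integral_const_mul, hy1, integral_finsetSum _ fun i _ => (hxi i).const_mul _]
      have : ∀ i ∈ (Finset.univ : Finset (Fin m)), ∫ ω, u i ^ 2 * x i ω ^ 2 ∂ν = u i ^ 2 := by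
        intro i _
        rw [integral_const_mul, hx1, mul_one]
      rw [Finset.sum_congr rfl this, hu1]
      simp
      ring
    rw [← hL]
    refine integral_mono ?_ ?_ fun ω => ?_
    · refine ((integrable_const _).add (hyi.const_mul _)).sub
        (((integrable_finsetSum _ fun i _ => (hxi i).const_mul _).const_mul _).add
          (hyi.const_mul _))
    · have := integrable_finsetSum Finset.univ fun k (_ : k ∈ Finset.univ) => hGi k
      refine this.congr (Filter.Eventually.of_forall fun ω => ?_)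
      simp only
      rw [Finset.sum_comm]
      refine Finset.sum_congr rfl fun i _ => ?_
      show _ = if |⟪O i, f ω⟫| ≤ 3 then _ else _
      split_ifs with hi
      · rw [sum_q, h.sq, ON_norm hO]
        simp only [x, y, u]
        ring
      · simp
    · show m + (m - 2) * y ω ^ 2 - (5 * m / 36 * (∑ i, u i ^ 2 * x i ω ^ 2) +
        (m / 9 + 4) * y ω ^ 2) ≤ ∑ i, (if |x i ω| ≤ 3 then
          (m * u i ^ 2 - 2 * (u i * y ω * x i ω) + y ω ^ 2) else 0)
      refine le_trans (le_of_eq ?_) (Finset.sum_le_sum fun i _ => pt_low hm0 (u i) (x i ω) (y ω))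
      have e1 : ∑ i, u i * x i ω = y ω := ON_parseval hO U (f ω)
      have e2 : ∑ i, x i ω ^ 2 = m := by
        have := ON_parseval hO (f ω) (f ω)
        rw [real_inner_self_eq_norm_sq, h.sq] at this
        rw [← this]
        exact Finset.sum_congr rfl fun i _ => sq _
      have e3 : ∀ i, (m * u i ^ 2 - 2 * (u i * y ω * x i ω) + y ω ^ 2) -
          (5 * m / 36 * (u i ^ 2 * x i ω ^ 2) + x i ω ^ 2 / 9 * y ω ^ 2 +
            4 / m * (x i ω ^ 2 * y ω ^ 2)) =
          m * u i ^ 2 - 2 * y ω * (u i * x i ω) + y ω ^ 2 -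
          (5 * m / 36) * (u i ^ 2 * x i ω ^ 2) - (y ω ^ 2 / 9 + 4 / m * y ω ^ 2) * x i ω ^ 2 := by
        intro i; ring
      rw [Finset.sum_congr rfl fun i _ => e3 i, Finset.sum_sub_distrib, Finset.sum_sub_distrib,
        Finset.sum_add_distrib, Finset.sum_sub_distrib, ← Finset.mul_sum, ← Finset.mul_sum,
        ← Finset.mul_sum, ← Finset.mul_sum, hu1, e1, e2]
      simp only [Finset.sum_const, Finset.card_univ, Fintype.card_fin, nsmul_eq_mul]
      field_simp
      ring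
  -- the sum of the second order conditions
  have hG0 : G i0 = 0 := by
    show ∫ ω, ∑ i, (if |⟪O i, f ω⟫| ≤ 3 then
      (⟪O i, U⟫ * ⟪b i0, f ω⟫ - ⟪O i, b i0⟫ * ⟪U, f ω⟫) ^ 2 else 0) ∂ν = 0
    rw [hb]
    simp
  have hsec : ∀ k ∈ Finset.univ.erase i0, (2 - 1 / (64 * (m:ℝ))) * G k ≤
      2 * (MM ν f O U + MM ν f O (b k)) := by
    intro k hk
    have hk' : i0 ≠ k := fun e => (Finset.mem_erase.1 hk).1 e.symm
    refine second_order (by omega) h hO hmax hU ?_ ?_
    · rw [real_inner_self_eq_norm_sq, b.norm_eq_one, one_pow]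
    · rw [← hb]
      have := orthonormal_iff_ite.1 b.orthonormal i0 k
      rw [this, if_neg hk']
  have hsec' := Finset.sum_le_sum hsec
  rw [← Finset.mul_sum, ← Finset.mul_sum, Finset.sum_add_distrib, Finset.sum_const,
    Finset.card_erase_of_mem (Finset.mem_univ _), Finset.card_univ, Fintype.card_fin,
    nsmul_eq_mul] at hsec'
  have h5 : ∑ k ∈ Finset.univ.erase i0, G k = ∑ k, G k := by
    rw [← Finset.add_sum_erase _ _ (Finset.mem_univ i0), hG0, zero_add]
  have h6 : ∑ k ∈ Finset.univ.erase i0, MM ν f O (b k) = ∑ k, MM ν f O (b k) - MM ν f O U := by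
    rw [← Finset.add_sum_erase _ _ (Finset.mem_univ i0), hb]
    ring
  -- the trace
  have htr : ∑ k, MM ν f O (b k) ≤ m := by
    unfold MM
    rw [← integral_finsetSum _ fun k _ => int_term h O (b k) (b k)]
    have h7 : ∀ ω, ∑ k, ∑ i, ps ⟪O i, f ω⟫ * (⟪O i, b k⟫ * ⟪b k, f ω⟫) =
        ∑ i, ps (x i ω) * x i ω := by
      intro ω
      rw [Finset.sum_comm]
      refine Finset.sum_congr rfl fun i _ => ?_
      rw [← Finset.mul_sum, b.sum_inner_mul_inner]
    rw [integral_congr_ae (Filter.Eventually.of_forall h7)]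
    have h8 : ∫ ω, ∑ i, x i ω ^ 2 ∂ν = m := by
      rw [integral_finsetSum _ fun i _ => hxi i, Finset.sum_congr rfl fun i _ => hx1 i]
      simp
    rw [← h8]
    refine integral_mono ?_ (integrable_finsetSum _ fun i _ => hxi i) fun ω =>
      Finset.sum_le_sum fun i _ => ps_mul_le _
    refine integrable_finsetSum _ fun i _ => ?_
    refine integrable_bdd (C := 7/2 * √m) ((ps_continuous.measurable.comp (hmx i)).mul (hmx i))
      fun ω => ?_
    rw [abs_mul]
    exact mul_le_mul (abs_ps_le _) (hxb i ω) (abs_nonneg _) (by norm_num)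
  rw [h5, h6] at hsec'
  have hc : ((m - 1 : ℕ) : ℝ) = m - 1 := by
    rw [Nat.cast_sub (by omega), Nat.cast_one]
  rw [hc] at hsec'
  obtain ⟨T, hT⟩ : ∃ T, T = ∑ k, MM ν f O (b k) := ⟨_, rfl⟩
  obtain ⟨S, hS⟩ : ∃ S, S = ∑ k, G k := ⟨_, rfl⟩
  obtain ⟨M, hM⟩ : ∃ M, M = MM ν f O U := ⟨_, rfl⟩
  rw [← hT] at htr hsec'
  rw [← hS] at hlow hsec'
  rw [← hM] at hsec' ⊢
  have h9 : 1 / (64 * (m:ℝ)) ≤ 1 / (64 * 36) := one_div_le_one_div_of_le (by norm_num) (by linarith)
  have h9' : 0 < 1 / (64 * (m:ℝ)) := by positivity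
  have h10 : (2 - 1 / (64 * (m:ℝ))) * (7 / 4 * (m:ℝ) - 6) ≤ (2 - 1 / (64 * (m:ℝ))) * S :=
    mul_le_mul_of_nonneg_left hlow (by linarith)
  have h11 : 1 / (64 * (m:ℝ)) * m = 1 / 64 := by field_simp
  have h12 : (2 - 1 / (64 * (m:ℝ))) * (7 / 4 * (m:ℝ) - 6) =
      7 / 2 * m - 12 - 7 / 4 * (1 / (64 * (m:ℝ)) * m) + 6 * (1 / (64 * (m:ℝ))) := by ring
  rw [h11] at h12
  rw [h12] at h10
  by_contra hlt
  rw [not_le] at hlt
  nlinarith

end low

end D7L
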