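import Pool.Agent.H.MP_d7d3dc_an.helper67.Low

/-!
MP_d7d3dc_an, subspaces of `L_1` (helper67): the vectors `e_i`.
-/

set_option autoImplicit false

namespace D7L

open MeasureTheory Finset
open scoped RealInnerProductSpace BigOperators

section sys
variable {Ω : Type} [MeasurableSpace Ω] {ν : Measure Ω} {m : ℕ} {f : Ω → EE m}

/-- the `L_1` norm. -/
noncomputable def N1 (ν : Measure Ω) (f : Ω → EE m) (x : EE m) : ℝ := ∫ ω, |⟪x, f ω⟫| ∂ν

lemma Iso.int_inner [IsFiniteMeasure ν] (h : Iso ν m f) (x : EE m) :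
    Integrable (fun ω => ⟪x, f ω⟫) ν :=
  integrable_bdd (h.meas_inner x) (h.abs_inner_le x)

lemma Iso.int_sq [IsFiniteMeasure ν] (h : Iso ν m f) (x : EE m) :
    Integrable (fun ω => ⟪x, f ω⟫ ^ 2) ν :=
  integrable_bdd (C := (√m * ‖x‖) ^ 2) ((h.meas_inner x).pow_const 2) fun ω => by
    rw [abs_pow]; exact pow_le_pow_left₀ (abs_nonneg _) (h.abs_inner_le x ω) 2

lemma N1_nonneg (x : EE m) : 0 ≤ N1 ν f x := integral_nonneg fun _ => abs_nonneg _

/-- `‖x‖ ≤ √m N_1(x)`. -/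
lemma Iso.norm_le [IsFiniteMeasure ν] (h : Iso ν m f) (x : EE m) : ‖x‖ ≤ √m * N1 ν f x := by
  have h1 : ‖x‖ ^ 2 ≤ (√m * ‖x‖) * N1 ν f x := by
    unfold N1
    rw [← h.iso x, ← integral_const_mul]
    refine integral_mono (h.int_sq x) ((h.int_inner x).abs.const_mul _) fun ω => ?_
    show ⟪x, f ω⟫ ^ 2 ≤ √m * ‖x‖ * |⟪x, f ω⟫|
    have h5 : ⟪x, f ω⟫ ^ 2 = |⟪x, f ω⟫| * |⟪x, f ω⟫| := by rw [← sq_abs, pow_two]
    rw [h5]
    exact mul_le_mul_of_nonneg_right (h.abs_inner_le x ω) (abs_nonneg _)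
  rcases (norm_nonneg x).eq_or_lt with h0 | h0
  · rw [← h0]
    exact mul_nonneg (Real.sqrt_nonneg _) (N1_nonneg x)
  · have h2 : ‖x‖ * ‖x‖ ≤ ‖x‖ * (√m * N1 ν f x) := by nlinarith
    exact le_of_mul_le_mul_left h2 h0

/-- `N_1(x) ≤ ‖x‖`. -/
lemma Iso.N1_le [IsProbabilityMeasure ν] (h : Iso ν m f) (x : EE m) : N1 ν f x ≤ ‖x‖ := by
  rcases (norm_nonneg x).eq_or_lt with h0 | h0
  · have hx : x = 0 := norm_eq_zero.1 h0.symm
    unfold N1
    rw [hx]
    simp
  · have h1 : N1 ν f x ≤ ∫ ω, (⟪x, f ω⟫ ^ 2 / (2 * ‖x‖) + ‖x‖ / 2) ∂ν := by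
      unfold N1
      refine integral_mono (h.int_inner x).abs (((h.int_sq x).div_const _).add
        (integrable_const _)) fun ω => ?_
      show |⟪x, f ω⟫| ≤ ⟪x, f ω⟫ ^ 2 / (2 * ‖x‖) + ‖x‖ / 2
      have h2 : ⟪x, f ω⟫ ^ 2 / (2 * ‖x‖) + ‖x‖ / 2 - |⟪x, f ω⟫| =
          (|⟪x, f ω⟫| - ‖x‖) ^ 2 / (2 * ‖x‖) := by
        rw [← sq_abs]
        field_simp
        ring
      have h3 : 0 ≤ (|⟪x, f ω⟫| - ‖x‖) ^ 2 / (2 * ‖x‖) := by positivity
      linarith
    rw [integral_add ((h.int_sq x).div_const _) (integrable_const _), integral_div, h.iso] at h1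
    have h4 : ‖x‖ ^ 2 / (2 * ‖x‖) = ‖x‖ / 2 := by field_simp
    rw [h4] at h1
    simp at h1
    linarith

/-- a good system of vectors. -/
structure Good (ν : Measure Ω) (f : Ω → EE m) (K c : ℝ) (e : Fin m → EE m) : Prop where
  cpos : 0 < c
  Kpos : 0 < K
  le : K ≤ 6 * c
  up : ∀ i x, |⟪e i, x⟫| ≤ K * N1 ν f x
  low : ∀ x, c * ‖x‖ ≤ √(∑ i, ⟪e i, x⟫ ^ 2)
  low' : ∀ a : Fin m → ℝ, c * √(∑ i, a i ^ 2) ≤ ‖∑ i, a i • e i‖

/-- `MM` on all vectors. -/
lemma MM_low' [IsProbabilityMeasure ν] (hm : 36 ≤ m) (h : Iso ν m f) {O : Fin m → EE m}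
    (hO : O ∈ ON m) (hmax : ∀ O' ∈ ON m, FF ν f O' ≤ FF ν f O) (x : EE m) :
    7 / 12 * ‖x‖ ^ 2 ≤ MM ν f O x := by
  rcases (norm_nonneg x).eq_or_lt with h0 | h0
  · have hx : x = 0 := norm_eq_zero.1 h0.symm
    rw [hx]
    unfold MM
    simp
  · have h1 : ⟪(‖x‖⁻¹ • x), (‖x‖⁻¹ • x)⟫ = (1:ℝ) := by
      rw [real_inner_self_eq_norm_sq, norm_smul, norm_inv, norm_norm, inv_mul_cancel₀ h0.ne',
        one_pow]
    have h2 := MM_low hm h hO hmax h1
    have h3 : MM ν f O x = ‖x‖ ^ 2 * MM ν f O (‖x‖⁻¹ • x) := by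
      unfold MM
      rw [← integral_const_mul]
      refine integral_congr_ae (Filter.Eventually.of_forall fun ω => ?_)
      simp only
      rw [Finset.mul_sum]
      refine Finset.sum_congr rfl fun i _ => ?_
      rw [real_inner_smul_right, real_inner_smul_left]
      field_simp
    rw [h3]
    nlinarith [sq_nonneg ‖x‖]

/-- existence of a good system. -/
theorem exists_good [IsProbabilityMeasure ν] (h : Iso ν m f) :
    ∃ (K c : ℝ) (e : Fin m → EE m), Good ν f K c e := by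
  rcases lt_or_ge m 36 with hm | hm
  · -- small dimensions
    have hO : (fun i => EuclideanSpace.basisFun (Fin m) ℝ i) ∈ ON m := fun i j =>
      orthonormal_iff_ite.1 (EuclideanSpace.basisFun (Fin m) ℝ).orthonormal i j
    obtain ⟨O, hO⟩ : ∃ O, O ∈ ON m := ⟨_, hO⟩
    have hs : √(m:ℝ) ≤ 6 := by
      rw [Real.sqrt_le_left (by norm_num)]
      have : (m:ℝ) ≤ 36 := by exact_mod_cast hm.le
      linarith
    refine ⟨6, 1, O, one_pos, by norm_num, by norm_num, ?_, ?_, ?_⟩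
    · intro i x
      have h1 := abs_real_inner_le_norm (O i) x
      rw [ON_norm hO, one_mul] at h1
      have h2 := h.norm_le x
      have h3 : √(m:ℝ) * N1 ν f x ≤ 6 * N1 ν f x := mul_le_mul_of_nonneg_right hs (N1_nonneg x)
      linarith
    · intro x
      have h1 : ∑ i, ⟪O i, x⟫ ^ 2 = ‖x‖ ^ 2 := by
        rw [← real_inner_self_eq_norm_sq, ← ON_parseval hO x x]
        exact Finset.sum_congr rfl fun i _ => sq _
      rw [h1, Real.sqrt_sq (norm_nonneg _), one_mul]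
    · intro a
      have h1 : ‖∑ i, a i • O i‖ ^ 2 = ∑ i, a i ^ 2 := by
        rw [← real_inner_self_eq_norm_sq, sum_inner]
        refine Finset.sum_congr rfl fun i _ => ?_
        rw [inner_sum]
        simp only [real_inner_smul_right, real_inner_smul_left, hO i]
        simp [sq]
      rw [← h1, Real.sqrt_sq (norm_nonneg _), one_mul]
  · obtain ⟨O, hO, hmax⟩ := FF_exists_max h
    have hint : ∀ i, Integrable (fun ω => ps ⟪O i, f ω⟫ • f ω) ν := by
      intro i
      refine Integrable.of_bound (C := 7/2 * √m) ?_ (Filter.Eventually.of_forall fun ω => ?_)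
      · exact ((ps_continuous.measurable.comp (h.meas_inner _)).smul h.meas).aestronglyMeasurable
      · rw [norm_smul, h.norm_eq, Real.norm_eq_abs]
        exact mul_le_mul_of_nonneg_right (abs_ps_le _) (Real.sqrt_nonneg _)
    let e : Fin m → EE m := fun i => ∫ ω, ps ⟪O i, f ω⟫ • f ω ∂ν
    have he : ∀ i x, ⟪e i, x⟫ = ∫ ω, ps ⟪O i, f ω⟫ * ⟪x, f ω⟫ ∂ν := by
      intro i x
      rw [real_inner_comm]
      show ⟪x, ∫ ω, ps ⟪O i, f ω⟫ • f ω ∂ν⟫ = _
      rw [← integral_inner (hint i)]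
      refine integral_congr_ae (Filter.Eventually.of_forall fun ω => ?_)
      simp only [real_inner_smul_right]
    have hMM : ∀ x, MM ν f O x = ∑ i, ⟪O i, x⟫ * ⟪e i, x⟫ := by
      intro x
      unfold MM
      rw [integral_finsetSum]
      · refine Finset.sum_congr rfl fun i _ => ?_
        rw [he, ← integral_const_mul]
        refine integral_congr_ae (Filter.Eventually.of_forall fun ω => ?_)
        simp only
        ring
      · intro i _
        refine integrable_bdd (C := 7/2 * (|⟪O i, x⟫| * (√m * ‖x‖))) ?_ fun ω => ?_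
        · exact (ps_continuous.measurable.comp (h.meas_inner _)).mul
            ((h.meas_inner _).const_mul _)
        · rw [abs_mul, abs_mul]
          have h1 := abs_ps_le ⟪O i, f ω⟫
          have h2 := h.abs_inner_le x ω
          gcongr
    have hlow := fun x => MM_low' hm h hO hmax x
    refine ⟨7/2, 7/12, e, by norm_num, by norm_num, by norm_num, ?_, ?_, ?_⟩
    · intro i x
      rw [he]
      refine (abs_integral_le_integral_abs).trans ?_
      unfold N1
      rw [← integral_const_mul]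
      refine integral_mono ?_ ((h.int_inner x).abs.const_mul _) fun ω => ?_
      · refine Integrable.abs ?_
        refine integrable_bdd (C := 7/2 * (√m * ‖x‖)) ?_ fun ω => ?_
        · exact (ps_continuous.measurable.comp (h.meas_inner _)).mul (h.meas_inner _)
        · rw [abs_mul]
          exact mul_le_mul (abs_ps_le _) (h.abs_inner_le x ω) (abs_nonneg _) (by norm_num)
      · show |ps ⟪O i, f ω⟫ * ⟪x, f ω⟫| ≤ 7/2 * |⟪x, f ω⟫|
        rw [abs_mul]
        exact mul_le_mul_of_nonneg_right (abs_ps_le _) (abs_nonneg _)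
    · intro x
      have h1 := hlow x
      rw [hMM] at h1
      have h2 : (∑ i, ⟪O i, x⟫ * ⟪e i, x⟫) ^ 2 ≤ (∑ i, ⟪O i, x⟫ ^ 2) * ∑ i, ⟪e i, x⟫ ^ 2 :=
        Finset.sum_mul_sq_le_sq_mul_sq _ _ _
      have h3 : ∑ i, ⟪O i, x⟫ ^ 2 = ‖x‖ ^ 2 := by
        rw [← real_inner_self_eq_norm_sq, ← ON_parseval hO x x]
        exact Finset.sum_congr rfl fun i _ => sq _
      rw [h3] at h2
      apply Real.le_sqrt_of_sq_le
      rcases (norm_nonneg x).eq_or_lt with h0 | h0
      · rw [← h0, mul_zero, zero_pow two_ne_zero]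
        positivity
      · have h4 : (7 / 12 * ‖x‖ ^ 2) ^ 2 ≤ ‖x‖ ^ 2 * ∑ i, ⟪e i, x⟫ ^ 2 :=
          (pow_le_pow_left₀ (by positivity) h1 2).trans h2
        have h5 : ‖x‖ ^ 2 * (7 / 12 * ‖x‖) ^ 2 ≤ ‖x‖ ^ 2 * ∑ i, ⟪e i, x⟫ ^ 2 := by
          refine le_trans (le_of_eq ?_) h4
          ring
        exact le_of_mul_le_mul_left h5 (by positivity)
    · intro a
      let x : EE m := ∑ i, a i • O i
      have hx : ∀ i, ⟪O i, x⟫ = a i := by
        intro i
        simp only [x]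
        rw [inner_sum]
        simp [real_inner_smul_right, hO i]
      have h3 : ∑ i, a i ^ 2 = ‖x‖ ^ 2 := by
        rw [← real_inner_self_eq_norm_sq, ← ON_parseval hO x x]
        exact Finset.sum_congr rfl fun i _ => by rw [hx, sq]
      rw [h3, Real.sqrt_sq (norm_nonneg _)]
      have h1 := hlow x
      rw [hMM] at h1
      have h4 : ∑ i, ⟪O i, x⟫ * ⟪e i, x⟫ = ⟪∑ i, a i • e i, x⟫ := by
        rw [sum_inner]
        refine Finset.sum_congr rfl fun i _ => ?_
        rw [hx, real_inner_smul_left]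
      rw [h4] at h1
      have h5 := (le_abs_self _).trans (abs_real_inner_le_norm (∑ i, a i • e i) x)
      rcases (norm_nonneg x).eq_or_lt with h0 | h0
      · rw [← h0, mul_zero]
        exact norm_nonneg _
      · have h6 : ‖x‖ * (7 / 12 * ‖x‖) ≤ ‖x‖ * ‖∑ i, a i • e i‖ := by nlinarith
        exact le_of_mul_le_mul_left h6 h0

end sys

end D7L
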